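import Pool.Agent.Helper89.KN.Defs

/-! Small API for `conf`, `res`, `cnt`. -/

open MeasureTheory Set Filter Topology
open scoped ENNReal

namespace KN

@[simp] theorem mem_conf {m : ℕ} {x : Fin m → ℂ} {z : ℂ} : z ∈ conf x ↔ ∃ i, x i = z := by
  simp [conf]

@[simp] theorem card_conf {m : ℕ} (x : Fin m → ℂ) : Multiset.card (conf x) = m := by
  simp [conf]

theorem conf_map {m : ℕ} (x : Fin m → ℂ) (T : ℂ → ℂ) : (conf x).map T = conf (fun i => T (x i)) := by
  unfold conf
  rw [Multiset.map_map]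
  rfl

@[simp] theorem mem_res {W : Set ℂ} {ω : Multiset ℂ} {z : ℂ} : z ∈ res W ω ↔ z ∈ ω ∧ z ∈ W := by
  classical
  unfold res
  simp [Multiset.mem_filter]

@[simp] theorem res_zero (W : Set ℂ) : res W 0 = 0 := by
  classical
  simp [res]

@[simp] theorem res_add (W : Set ℂ) (ω ω' : Multiset ℂ) : res W (ω + ω') = res W ω + res W ω' := by
  classical
  unfold res
  exact Multiset.filter_add _ _ _

theorem res_cons_of_mem {W : Set ℂ} {z : ℂ} (h : z ∈ W) (ω : Multiset ℂ) :
    res W (z ::ₘ ω) = z ::ₘ res W ω := by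
  classical
  unfold res
  exact Multiset.filter_cons_of_pos _ h

theorem res_cons_of_notMem {W : Set ℂ} {z : ℂ} (h : z ∉ W) (ω : Multiset ℂ) :
    res W (z ::ₘ ω) = res W ω := by
  classical
  unfold res
  exact Multiset.filter_cons_of_neg _ h

theorem res_res (W W' : Set ℂ) (ω : Multiset ℂ) : res W (res W' ω) = res (W ∩ W') ω := by
  classical
  unfold res
  ext a
  simp only [Multiset.count_filter]
  by_cases h1 : a ∈ W <;> by_cases h2 : a ∈ W' <;> simp [h1, h2]

theorem res_le (W : Set ℂ) (ω : Multiset ℂ) : res W ω ≤ ω := by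
  classical
  unfold res
  exact Multiset.filter_le _ _

theorem res_eq_self {W : Set ℂ} {ω : Multiset ℂ} (h : ∀ z ∈ ω, z ∈ W) : res W ω = ω := by
  classical
  unfold res
  exact Multiset.filter_eq_self.2 h

theorem res_eq_zero {W : Set ℂ} {ω : Multiset ℂ} (h : ∀ z ∈ ω, z ∉ W) : res W ω = 0 := by
  classical
  unfold res
  exact Multiset.filter_eq_nil.2 h

theorem res_congr {W W' : Set ℂ} {ω : Multiset ℂ} (h : ∀ z ∈ ω, (z ∈ W ↔ z ∈ W')) :
    res W ω = res W' ω := by
  classical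
  unfold res
  exact Multiset.filter_congr h

/-- splitting a configuration contained in a disjoint union -/
theorem res_add_res_compl (W : Set ℂ) (ω : Multiset ℂ) : res W ω + res Wᶜ ω = ω := by
  classical
  unfold res
  ext a
  simp only [Multiset.count_filter, Multiset.count_add]
  by_cases h1 : a ∈ W <;> simp [h1]

theorem res_map (W : Set ℂ) (T : ℂ → ℂ) (ω : Multiset ℂ) :
    res W (ω.map T) = (res (T ⁻¹' W) ω).map T := by
  classical
  unfold res
  rw [Multiset.filter_map]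
  rfl

@[simp] theorem cnt_zero (W : Set ℂ) : cnt W 0 = 0 := by simp [cnt]

@[simp] theorem cnt_add (W : Set ℂ) (ω ω' : Multiset ℂ) : cnt W (ω + ω') = cnt W ω + cnt W ω' := by
  simp [cnt]

theorem cnt_map (W : Set ℂ) (T : ℂ → ℂ) (ω : Multiset ℂ) :
    cnt W (ω.map T) = cnt (T ⁻¹' W) ω := by
  simp [cnt, res_map]

theorem cnt_mono {W W' : Set ℂ} (h : W ⊆ W') (ω : Multiset ℂ) : cnt W ω ≤ cnt W' ω := by
  classical
  unfold cnt res
  exact Multiset.card_le_card (Multiset.monotone_filter_right _ (fun z hz => h hz))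

theorem cnt_mono' {W W' : Set ℂ} {ω : Multiset ℂ} (h : ∀ z ∈ ω, z ∈ W → z ∈ W') :
    cnt W ω ≤ cnt W' ω := by
  classical
  have h1 : cnt W ω = cnt (W ∩ W') ω := by
    unfold cnt
    rw [res_congr (W' := W ∩ W') (fun z hz => ⟨fun hw => ⟨hw, h z hz hw⟩, fun hw => hw.1⟩)]
  rw [h1]
  exact cnt_mono Set.inter_subset_right ω

theorem cnt_le_cnt {W : Set ℂ} {ω ω' : Multiset ℂ} (h : ω ≤ ω') : cnt W ω ≤ cnt W ω' := by
  classical
  unfold cnt res
  exact Multiset.card_le_card (Multiset.filter_le_filter _ h)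

theorem cnt_res (W W' : Set ℂ) (ω : Multiset ℂ) : cnt W (res W' ω) = cnt (W ∩ W') ω := by
  simp [cnt, res_res]

theorem cnt_eq_zero {W : Set ℂ} {ω : Multiset ℂ} : cnt W ω = 0 ↔ ∀ z ∈ ω, z ∉ W := by
  constructor
  · intro h z hz hW
    have : z ∈ res W ω := mem_res.2 ⟨hz, hW⟩
    unfold cnt at h
    rw [Multiset.card_eq_zero] at h
    rw [h] at this
    simp at this
  · intro h
    unfold cnt
    rw [res_eq_zero h]
    simp

open Classical in
theorem cnt_conf_eq_sum {m : ℕ} (W : Set ℂ) (x : Fin m → ℂ) :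
    cnt W (conf x) = ∑ i, if x i ∈ W then 1 else 0 := by
  unfold cnt res conf
  rw [Multiset.filter_map, Multiset.card_map]
  rw [Finset.sum_boole]
  simp only [Nat.cast_id]
  rfl

theorem cnt_conf_eq_ncard {m : ℕ} (W : Set ℂ) (x : Fin m → ℂ) :
    cnt W (conf x) = {i | x i ∈ W}.ncard := by
  classical
  rw [cnt_conf_eq_sum, Finset.sum_boole, Set.ncard_eq_toFinset_card']
  simp

/-- the configuration of a `Fin.cons` -/
theorem conf_cons {m : ℕ} (z : ℂ) (x : Fin m → ℂ) :
    conf (Fin.cons z x : Fin (m + 1) → ℂ) = z ::ₘ conf x := by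
  simp [conf, Fin.univ_succ, Function.comp_def]

end KN
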