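import Pool.Agent.Helper89.KN.Defs

/-! Statements of the parts of the KN project (MP_2af9b5_pr). -/

open MeasureTheory Set Filter Topology
open scoped ENNReal

noncomputable section

namespace KN

/-! ### Probability toolkit -/

/-- BASIC: elementary properties of `prob` -/
def S_BASIC : Prop :=
  (∀ (S : Set ℂ) (Q Q' : ∀ m : ℕ, (Fin m → ℂ) → Prop), MeasurableSet S →
    (∀ m x, (∀ i, x i ∈ S) → Q m x → Q' m x) → prob S Q ≤ prob S Q') ∧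
  (∀ (S : Set ℂ) (Q Q' : ∀ m : ℕ, (Fin m → ℂ) → Prop),
    prob S (fun m x => Q m x ∨ Q' m x) ≤ prob S Q + prob S Q') ∧
  (∀ (S : Set ℂ) (ι : Type) (I : Finset ι) (Q : ι → ∀ m : ℕ, (Fin m → ℂ) → Prop),
    prob S (fun m x => ∃ i ∈ I, Q i m x) ≤ ∑ i ∈ I, prob S (Q i)) ∧
  (∀ (S : Set ℂ), volume S ≠ ⊤ → prob S (fun _ _ => True) = 1) ∧
  (∀ (S : Set ℂ) (Q : ∀ m : ℕ, (Fin m → ℂ) → Prop), volume S ≠ ⊤ →
    (∀ m, MeasurableSet {x | Q m x}) → prob S Q + prob S (fun m x => ¬ Q m x) = 1)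

/-- SUP: superposition -/
def S_SUP : Prop :=
  ∀ (S₁ S₂ : Set ℂ), MeasurableSet S₁ → MeasurableSet S₂ → Disjoint S₁ S₂ →
    volume S₁ ≠ ⊤ → volume S₂ ≠ ⊤ → ∀ J : Multiset ℂ → Multiset ℂ → Prop,
    (∀ m l : ℕ, MeasurableSet {p : (Fin m → ℂ) × (Fin l → ℂ) | J (conf p.1) (conf p.2)}) →
    PP (S₁ ∪ S₂) (fun ω => J (res S₁ ω) (res S₂ ω)) =
      ∑' m : ℕ, ENNReal.ofReal (Real.exp (-(volume S₁).toReal) / m.factorial) *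
        ∫⁻ x, PP S₂ (J (conf x)) ∂(Measure.pi fun _ : Fin m => volume.restrict S₁)

/-- IND: independence on disjoint regions -/
def S_IND : Prop :=
  ∀ (S₁ S₂ : Set ℂ), MeasurableSet S₁ → MeasurableSet S₂ → Disjoint S₁ S₂ →
    volume S₁ ≠ ⊤ → volume S₂ ≠ ⊤ → ∀ Q₁ Q₂ : Multiset ℂ → Prop, EMeas Q₁ → EMeas Q₂ →
    PP (S₁ ∪ S₂) (fun ω => Q₁ (res S₁ ω) ∧ Q₂ (res S₂ ω)) = PP S₁ Q₁ * PP S₂ Q₂

/-- RES: restriction of the process to a subregion -/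
def S_RES : Prop :=
  ∀ (S W : Set ℂ), MeasurableSet S → MeasurableSet W → W ⊆ S → volume S ≠ ⊤ →
    ∀ Q : Multiset ℂ → Prop, EMeas Q → PP S (fun ω => Q (res W ω)) = PP W Q

/-- VOID: no points in `Z` -/
def S_VOID : Prop :=
  ∀ (S Z : Set ℂ), MeasurableSet S → MeasurableSet Z → Z ⊆ S → volume S ≠ ⊤ →
    ∀ Q : Multiset ℂ → Prop, EMeas Q →
    PP S (fun ω => cnt Z ω = 0 ∧ Q (res (S \ Z) ω)) =
      ENNReal.ofReal (Real.exp (-(volume Z).toReal)) * PP (S \ Z) Q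

/-- MECKE: one-point Mecke bound -/
def S_MECKE : Prop :=
  ∀ (S : Set ℂ), MeasurableSet S → volume S ≠ ⊤ → ∀ Q : ℂ → Multiset ℂ → Prop, JMeas Q →
    PP S (fun ω => ∃ z rest, ω = z ::ₘ rest ∧ Q z rest) ≤ ∫⁻ z in S, PP S (Q z)

/-- MECKE2: two-point Mecke bound -/
def S_MECKE2 : Prop :=
  ∀ (S : Set ℂ), MeasurableSet S → volume S ≠ ⊤ → ∀ Q : ℂ × ℂ → Multiset ℂ → Prop, JMeas Q →
    PP S (fun ω => ∃ z w rest, ω = z ::ₘ w ::ₘ rest ∧ Q (z, w) rest) ≤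
      ∫⁻ z in S, ∫⁻ w in S, PP S (Q (z, w))

/-- ONEPT: exactly one point in `Z` (lower bound) -/
def S_ONEPT : Prop :=
  ∀ (S Z : Set ℂ), MeasurableSet S → MeasurableSet Z → Z ⊆ S → volume S ≠ ⊤ →
    ∀ Q : ℂ → Multiset ℂ → Prop, JMeas Q →
    ∫⁻ z in Z, PP S (fun ω => cnt Z ω = 0 ∧ Q z ω) ≤
      PP S (fun ω => ∃ z ∈ Z, ∃ rest, ω = z ::ₘ rest ∧ cnt Z rest = 0 ∧ Q z rest)

/-- MAP: mapping -/
def S_MAP : Prop :=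
  ∀ (S S' : Set ℂ) (T : ℂ → ℂ), MeasurePreserving T (volume.restrict S) (volume.restrict S') →
    volume S ≠ ⊤ → ∀ Q : Multiset ℂ → Prop, EMeas Q →
    PP S (fun ω => Q (ω.map T)) = PP S' Q

/-- MAPE: mapping by a measurable equivalence (no measurability of the event needed) -/
def S_MAPE : Prop :=
  ∀ (S : Set ℂ) (T : ℂ ≃ᵐ ℂ), MeasurePreserving T volume volume → ∀ Q : Multiset ℂ → Prop,
    PP S (fun ω => Q (ω.map T)) = PP (T '' S) Q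

/-- CHER: void region `U` and at least `k` points in `V` -/
def S_CHER : Prop :=
  ∀ (S U V : Set ℂ) (a₁ a₂ : ℝ) (k : ℕ), MeasurableSet S → MeasurableSet U → MeasurableSet V →
    U ⊆ S → V ⊆ S → Disjoint U V → volume S ≠ ⊤ → 0 ≤ a₁ → 0 < a₂ →
    ENNReal.ofReal a₁ ≤ volume U → volume V ≤ ENNReal.ofReal a₂ →
    PP S (fun ω => cnt U ω = 0 ∧ k ≤ cnt V ω) ≤ ENNReal.ofReal ((a₂ / (a₁ + a₂)) ^ k)

/-- CHU: upper tail of the Poisson distribution -/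
def S_CHU : Prop :=
  ∀ (S V : Set ℂ) (a z : ℝ) (k : ℕ), MeasurableSet S → MeasurableSet V → V ⊆ S → volume S ≠ ⊤ →
    0 ≤ a → 1 ≤ z → volume V ≤ ENNReal.ofReal a →
    PP S (fun ω => k ≤ cnt V ω) ≤ ENNReal.ofReal (Real.exp (a * (z - 1)) / z ^ k)

/-- CHD: lower tail of the Poisson distribution -/
def S_CHD : Prop :=
  ∀ (S V : Set ℂ) (a : ℝ) (k : ℕ), MeasurableSet S → MeasurableSet V → V ⊆ S → volume S ≠ ⊤ →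
    0 ≤ a → ENNReal.ofReal a ≤ volume V →
    PP S (fun ω => cnt V ω ≤ k) ≤ ENNReal.ofReal (2 ^ k * Real.exp (-(a / 2)))

/-- LOWC: lower bound for prescribed numbers of points in disjoint cells -/
def S_LOWC : Prop :=
  ∀ (S Z : Set ℂ) (N : ℕ) (C : Fin N → Set ℂ) (q : Fin N → ℕ), MeasurableSet S → MeasurableSet Z →
    (∀ i, MeasurableSet (C i)) → Z ⊆ S → (∀ i, C i ⊆ S) → (∀ i, Disjoint Z (C i)) →
    (∀ i j, i ≠ j → Disjoint (C i) (C j)) → volume S ≠ ⊤ →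
    ENNReal.ofReal (Real.exp (-(volume Z).toReal) *
      ∏ i, (Real.exp (-(volume (C i)).toReal) * (volume (C i)).toReal ^ (q i) / (q i).factorial)) ≤
      PP S (fun ω => cnt Z ω = 0 ∧ ∀ i, q i ≤ cnt (C i) ω)

/-- FAM: independence for finitely many disjoint regions -/
def S_FAM : Prop :=
  ∀ (S : Set ℂ) (N : ℕ) (W : Fin N → Set ℂ) (Q : Fin N → Multiset ℂ → Prop), MeasurableSet S →
    (∀ i, MeasurableSet (W i)) → (∀ i, W i ⊆ S) → (∀ i j, i ≠ j → Disjoint (W i) (W j)) →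
    volume S ≠ ⊤ → (∀ i, EMeas (Q i)) →
    PP S (fun ω => ∀ i, Q i (res (W i) ω)) = ∏ i, PP (W i) (Q i)

/-- MEASG: general joint measurability -/
def S_MEASG : Prop :=
  ∀ (α : Type) [MeasurableSpace α] (W : α → Set ℂ) (D : α → ℂ → Set ℂ) (C C' : α → ℂ → Prop)
    (E : α → Prop) (k : ℕ),
    MeasurableSet {p : α × ℂ | p.2 ∈ W p.1} →
    MeasurableSet {p : (α × ℂ) × ℂ | p.2 ∈ D p.1.1 p.1.2} →
    MeasurableSet {p : α × ℂ | C p.1 p.2} → MeasurableSet {p : α × ℂ | C' p.1 p.2} →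
    MeasurableSet {p : α | E p} →
    JMeas (fun (p : α) ω => E p ∧ (∀ z ∈ res (W p) ω, C p z) ∧
      ∀ z ∈ res (W p) ω, C' p z → k ≤ cnt (D p z) (res (W p) ω))

/-- ISOM: measurability of `Iso` events -/
def S_ISOM : Prop :=
  (∀ (k : ℕ) (v : ℂ) (R : Set ℂ) (η δ Λ : ℝ) (W : Set ℂ), MeasurableSet W →
    EMeas (fun ω => Iso k v R η δ Λ (res W ω)) ∧ EMeas (Iso k v R η δ Λ)) ∧
  (∀ (k : ℕ) (R : Set ℂ) (η δ Λ Λ' : ℝ) (G : Set ℂ), MeasurableSet R → MeasurableSet G →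
    JMeas (fun (v : ℂ) ω => v ∈ G ∧ Iso k v R η δ Λ (res (Metric.ball v Λ' \ R) ω))) ∧
  (∀ (k : ℕ) (δ Λ Λ' : ℝ), JMeas (fun (v : ℂ) ω => Iso k v {v} 0 δ Λ (res (Metric.ball v Λ') ω))) ∧
  (∀ (k : ℕ) (δ Λ Λ' : ℝ) (G : Set (ℂ × ℂ)), MeasurableSet G →
    JMeas (fun (p : ℂ × ℂ) ω => p ∈ G ∧ Iso k p.1 {p.1, p.2} 0 δ Λ
      (res (Metric.ball p.1 Λ' \ Metric.closedBall p.1 (dist p.2 p.1)) ω)))

/-! ### Geometry -/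

/-- RM: the radial map is measure preserving; area of the star set -/
def S_RM : Prop :=
  ∀ (v : ℂ) (a : ℝ → ℝ) (M : ℝ), Measurable a → (∀ θ, 0 ≤ a θ) → (∀ θ, a θ ≤ M) →
    MeasurableSet (starSet v a) ∧
    MeasurePreserving (radT v a) (volume.restrict (starSet v a)ᶜ) volume ∧
    volume (starSet v a) = ∫⁻ θ in Ioc (-Real.pi) Real.pi, ENNReal.ofReal (a θ / 2)

/-- TM: comparison with the single vertex event -/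
def S_TM : Prop :=
  ∀ (k : ℕ) (v : ℂ) (R : Set ℂ) (η δ Λ Λ' M : ℝ) (a : ℝ → ℝ), Measurable a → (∀ θ, 0 ≤ a θ) →
    (∀ θ, a θ ≤ M) → 0 < Λ → 0 < Λ' → Λ ^ 2 + M ≤ Λ' ^ 2 → v ∈ R →
    (∀ x, δ ≤ Metric.infDist x R → a (x - v).arg ≤
      dist x v ^ 2 - ((dist x v + min (dist x v) (Metric.infDist x R + η)) / 2) ^ 2) →
    (∀ x ∈ starSet v a, Metric.infDist x R < δ) →
    PP (Metric.ball v (2 * Λ')) (Iso k v R η δ Λ') ≤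
      ENNReal.ofReal (Real.exp (-(volume (starSet v a)).toReal)) * pk k Λ

/-- TB: gain for a tiny set -/
def S_TB : Prop :=
  ∀ (k : ℕ) (v w : ℂ) (R : Set ℂ) (δ Λ Λ' : ℝ), 0 < δ → v ∈ R → w ∈ R → 10 * dist w v ≤ δ →
    0 < Λ → 0 < Λ' → Λ ^ 2 + δ ^ 2 ≤ Λ' ^ 2 →
    PP (Metric.ball v (2 * Λ')) (Iso k v R 0 δ Λ') ≤
      ENNReal.ofReal (Real.exp (-(δ * dist w v / 4))) * pk k Λ

/-- MGEO: the angular function for a union of cells -/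
def S_MGEO : Prop :=
  ∀ (v u : ℂ) (F : Finset (ℤ × ℤ)) (ε δ : ℝ), 0 < ε → 900 * ε ≤ δ → v ∈ cellU ε F → u ∈ cellU ε F →
    (∀ x ∈ cellU ε F, ∀ y ∈ cellU ε F, dist x y ≤ 1.99 * δ) → 10 * ε ≤ dist u v →
    ∃ a : ℝ → ℝ, Measurable a ∧ (∀ θ, 0 ≤ a θ) ∧ (∀ θ, a θ ≤ 5 * δ ^ 2) ∧
      (∀ x, δ ≤ Metric.infDist x (cellU ε F) → a (x - v).arg ≤
        dist x v ^ 2 - ((dist x v + min (dist x v)
          (Metric.infDist x (cellU ε F) + Real.sqrt 2 * ε)) / 2) ^ 2) ∧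
      (∀ x ∈ starSet v a, Metric.infDist x (cellU ε F) < δ) ∧
      (volume (cellU ε F)).toReal + ε * δ / 100 ≤ (volume (starSet v a)).toReal

/-- MB: gain for a medium set -/
def S_MB : Prop :=
  ∀ (k : ℕ) (v u : ℂ) (F : Finset (ℤ × ℤ)) (ε δ Λ Λ' : ℝ), 0 < ε → 900 * ε ≤ δ →
    v ∈ cellU ε F → u ∈ cellU ε F →
    (∀ x ∈ cellU ε F, ∀ y ∈ cellU ε F, dist x y ≤ 1.99 * δ) → 10 * ε ≤ dist u v →
    0 < Λ → 0 < Λ' → Λ ^ 2 + 5 * δ ^ 2 ≤ Λ' ^ 2 →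
    PP (Metric.ball v (2 * Λ')) (Iso k v (cellU ε F) (Real.sqrt 2 * ε) δ Λ') ≤
      ENNReal.ofReal (Real.exp (-((volume (cellU ε F)).toReal + ε * δ / 100))) * pk k Λ

/-- DB: doubling at a side -/
def S_DB : Prop :=
  ∀ (k : ℕ) (v : ℂ) (R : Set ℂ) (η δ Λ ρ : ℝ), v ∈ HP → R ⊆ HP → IsClosed R → R.Nonempty →
    0 < Λ → 2 * Λ ≤ ρ →
    (PP (Metric.ball v ρ ∩ HP) (Iso k v R η δ Λ)) ^ 2 ≤
      PP (Metric.ball v ρ) (Iso k v (R ∪ refl '' R) η δ Λ)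

/-- SL: area of the collar of a set of diameter `≥ 2 δ` -/
def S_SL : Prop :=
  ∀ (R : Set ℂ) (p q : ℂ) (δ : ℝ), IsCompact R → p ∈ R → q ∈ R → 0 < δ → 2 * δ ≤ dist p q →
    ENNReal.ofReal (2 * Real.pi * δ ^ 2) ≤ volume (collar R δ)

/-- LUNE: the lune constant -/
def S_LUNE : Prop :=
  1.87 ≤ lune ∧ lune ≤ Real.pi ∧
  (∀ (x z : ℂ) (δ : ℝ), 0 ≤ δ → dist x z = δ →
    volume (Metric.ball x δ \ Metric.ball z δ) = ENNReal.ofReal (lune * δ ^ 2))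

/-- NUM: the numerical inequalities -/
def S_NUM : Prop :=
  ∀ l : ℝ, 1.87 ≤ l → l ≤ Real.pi →
    0 < 3 * (Real.pi / l) * Real.log (4 / 3) ∧
    3 * (Real.pi / l) * Real.log (4 / 3) < Real.log (1 + 1.95 * Real.pi / l) ∧
    3 * (Real.pi / l) * Real.log (4 / 3) < 2 * Real.log (1 + 0.975 * Real.pi / l) ∧
    3 * (Real.pi / l) * Real.log (4 / 3) < Real.log (22 / 5) ∧
    3 * (Real.pi / l) * Real.log (4 / 3) < 2 * Real.log (12 / 5)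

/-- OG: area inequality for four extreme points -/
def S_OG : Prop :=
  ∀ (xl xr yb yt r : ℝ) (vl vr vt vb v₀ : ℂ), 0 < r → vl.re = xl → vr.re = xr → vt.im = yt →
    vb.im = yb → vl ∈ Box xl xr yb yt → vr ∈ Box xl xr yb yt → vt ∈ Box xl xr yb yt →
    vb ∈ Box xl xr yb yt → (v₀ = vl ∨ v₀ = vr ∨ v₀ = vt ∨ v₀ = vb) →
    (7 / 2) * (volume (Metric.ball v₀ r ∩ Box xl xr yb yt)).toReal ≤
      (volume ((Metric.ball vl r ∪ Metric.ball vr r ∪ Metric.ball vt r ∪ Metric.ball vb r) \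
        Box xl xr yb yt)).toReal ∧
    Real.pi * r ^ 2 ≤
      (volume ((Metric.ball vl r ∪ Metric.ball vr r ∪ Metric.ball vt r ∪ Metric.ball vb r) \
        Box xl xr yb yt)).toReal

/-- OGS: area inequality for two extreme points in the half plane -/
def S_OGS : Prop :=
  ∀ (yb yt r : ℝ) (vt vb v₀ : ℂ), 0 < r → 0 ≤ vt.re → 0 ≤ vb.re → vt.im = yt → vb.im = yb →
    yb ≤ yt → (v₀ = vt ∨ v₀ = vb) →
    (3 / 2) * (volume ({z : ℂ | 0 ≤ z.re ∧ yb ≤ z.im ∧ z.im ≤ yt} ∩ Metric.ball v₀ r)).toReal ≤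
      (volume ({z : ℂ | 0 ≤ z.re ∧ yt < z.im} ∩ Metric.ball vt r ∪
        {z : ℂ | 0 ≤ z.re ∧ z.im < yb} ∩ Metric.ball vb r)).toReal ∧
    Real.pi / 2 * r ^ 2 ≤
      (volume ({z : ℂ | 0 ≤ z.re ∧ yt < z.im} ∩ Metric.ball vt r ∪
        {z : ℂ | 0 ≤ z.re ∧ z.im < yb} ∩ Metric.ball vb r)).toReal

/-! ### Probability bounds for the elementary bad events -/

/-- TIN: tiny sets, interior -/
def S_TIN : Prop :=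
  ∀ (k : ℕ) (n r ρ Λ Λ' : ℝ), 0 < n → 0 < r → 0 < ρ → 50 * ρ ≤ r → 0 < Λ → 0 < Λ' →
    Λ ^ 2 + r ^ 2 ≤ Λ' ^ 2 →
    PP (Sq n) (EvT k (Inn n (2 * Λ')) n r ρ Λ') ≤
      ENNReal.ofReal (n * (128 * Real.pi / r ^ 2)) * pk k Λ

/-- TLE: tiny sets, left side (`2 Re v < ρ`) -/
def S_TLE : Prop :=
  ∀ (k : ℕ) (n r ρ Λ Λ' : ℝ), 0 < n → 0 < r → 0 < ρ → 200 * ρ ≤ r → 0 < Λ → 0 < Λ' →
    Λ ^ 2 + r ^ 2 ≤ Λ' ^ 2 → 4 * Λ' ≤ Real.sqrt n →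
    PP (Sq n) (EvT k (Lef n (2 * Λ') ∩ {v | 2 * v.re < ρ}) n r ρ Λ') ≤
      ENNReal.ofReal (Real.sqrt n * (16384 * Real.pi / r ^ 3)) * (pk k Λ) ^ (1 / 2 : ℝ)

/-- MIN: medium sets, interior -/
def S_MIN : Prop :=
  ∀ (k : ℕ) (n ε δ Λ Λ' : ℝ) (c₀ : ℤ × ℤ) (F : Finset (ℤ × ℤ)), 0 < n → 0 < ε → 900 * ε ≤ δ →
    (∀ x ∈ cellU ε F, ∀ y ∈ cellU ε F, dist x y ≤ 1.99 * δ) →
    0 < Λ → 0 < Λ' → Λ ^ 2 + 5 * δ ^ 2 ≤ Λ' ^ 2 →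
    PP (Sq n) (EvM k (Inn n (2 * Λ') ∩ Cell ε c₀) F (cellU ε F) ε δ Λ') ≤
      ENNReal.ofReal (ε ^ 2 * Real.exp (-(ε * δ / 100))) * pk k Λ

/-- MLE: medium sets, left side -/
def S_MLE : Prop :=
  ∀ (k : ℕ) (n ε δ Λ Λ' : ℝ) (c₀ : ℤ × ℤ) (F : Finset (ℤ × ℤ)), 0 < n → 0 < ε → 900 * ε ≤ δ →
    (∀ c ∈ F, 0 ≤ c.1) →
    (∀ x ∈ cellU ε F ∪ refl '' cellU ε F, ∀ y ∈ cellU ε F ∪ refl '' cellU ε F,
      dist x y ≤ 1.99 * δ) →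
    0 < Λ → 0 < Λ' → Λ ^ 2 + 5 * δ ^ 2 ≤ Λ' ^ 2 → 4 * Λ' ≤ Real.sqrt n →
    PP (Sq n) (EvM k (Lef n (2 * Λ') ∩ Cell ε c₀) F (cellU ε F ∪ refl '' cellU ε F) ε δ Λ') ≤
      ENNReal.ofReal (ε ^ 2 * Real.exp (-(ε * δ / 200))) * (pk k Λ) ^ (1 / 2 : ℝ)

/-- CIN: crude in-isolated sets, interior -/
def S_CIN : Prop :=
  ∀ (k : ℕ) (n ε : ℝ) (j : ℕ) (F : Finset (ℤ × ℤ)) (x z p q : ℂ), 0 < n → 0 < ε → 10000 ≤ j →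
    p ∈ cellU ε F → q ∈ cellU ε F → 1.98 * j * ε ≤ dist p q →
    (j - 3) * ε ≤ dist x z → dist x z ≤ (j + 4) * ε →
    collar (cellU ε F) (0.99 * j * ε) ⊆ Sq n →
    PP (Sq n) (fun ω => cnt (collar (cellU ε F) (0.99 * j * ε)) ω = 0 ∧
      k ≤ cnt ((Metric.ball x ((j + 3) * ε) \ Metric.ball z ((j - 3) * ε)) \
        collar (cellU ε F) (0.99 * j * ε)) ω) ≤
      ENNReal.ofReal ((1 / (1 + 1.95 * Real.pi / lune)) ^ k)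

/-- CLE: crude in-isolated sets, left side -/
def S_CLE : Prop :=
  ∀ (k : ℕ) (n ε : ℝ) (j : ℕ) (F : Finset (ℤ × ℤ)) (x z p q : ℂ), 0 < n → 0 < ε → 10000 ≤ j →
    (∀ c ∈ F, 0 ≤ c.1) →
    p ∈ cellU ε F ∪ refl '' cellU ε F → q ∈ cellU ε F ∪ refl '' cellU ε F →
    1.98 * j * ε ≤ dist p q →
    (j - 3) * ε ≤ dist x z → dist x z ≤ (j + 4) * ε →
    collar (cellU ε F) (0.99 * j * ε) ∩ HP ⊆ Sq n →
    PP (Sq n) (fun ω => cnt (collar (cellU ε F) (0.99 * j * ε) ∩ HP) ω = 0 ∧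
      k ≤ cnt ((Metric.ball x ((j + 3) * ε) \ Metric.ball z ((j - 3) * ε)) \
        collar (cellU ε F) (0.99 * j * ε)) ω) ≤
      ENNReal.ofReal ((1 / (1 + 0.975 * Real.pi / lune)) ^ k)

/-- OIN: out-closed sets, interior -/
def S_OIN : Prop :=
  ∀ (k : ℕ) (n ε : ℝ) (j : ℕ) (xl xr yb yt : ℝ) (vl vr vt vb v₀ : ℂ), 0 < n → 0 < ε →
    10000 ≤ j → vl.re = xl → vr.re = xr → vt.im = yt →
    vb.im = yb → vl ∈ Box xl xr yb yt → vr ∈ Box xl xr yb yt → vt ∈ Box xl xr yb yt →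
    vb ∈ Box xl xr yb yt → (v₀ = vl ∨ v₀ = vr ∨ v₀ = vt ∨ v₀ = vb) →
    ((Metric.ball vl ((j - 2) * ε) ∪ Metric.ball vr ((j - 2) * ε) ∪
      Metric.ball vt ((j - 2) * ε) ∪ Metric.ball vb ((j - 2) * ε)) \ Box xl xr yb yt) ⊆ Sq n →
    PP (Sq n) (fun ω => cnt ((Metric.ball vl ((j - 2) * ε) ∪ Metric.ball vr ((j - 2) * ε) ∪
      Metric.ball vt ((j - 2) * ε) ∪ Metric.ball vb ((j - 2) * ε)) \ Box xl xr yb yt) ω = 0 ∧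
      k ≤ cnt (Metric.ball v₀ ((j + 3) * ε) ∩ Box xl xr yb yt) ω) ≤
      ENNReal.ofReal ((5 / 22) ^ k)

/-- OLE: out-closed sets, left side -/
def S_OLE : Prop :=
  ∀ (k : ℕ) (n ε : ℝ) (j : ℕ) (yb yt : ℝ) (vt vb v₀ : ℂ), 0 < n → 0 < ε → 10000 ≤ j →
    0 ≤ vt.re → 0 ≤ vb.re → vt.im = yt → vb.im = yb → yb ≤ yt → (v₀ = vt ∨ v₀ = vb) →
    ({z : ℂ | 0 ≤ z.re ∧ yt < z.im} ∩ Metric.ball vt ((j - 2) * ε) ∪
        {z : ℂ | 0 ≤ z.re ∧ z.im < yb} ∩ Metric.ball vb ((j - 2) * ε)) ⊆ Sq n →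
    PP (Sq n) (fun ω => cnt ({z : ℂ | 0 ≤ z.re ∧ yt < z.im} ∩ Metric.ball vt ((j - 2) * ε) ∪
        {z : ℂ | 0 ≤ z.re ∧ z.im < yb} ∩ Metric.ball vb ((j - 2) * ε)) ω = 0 ∧
      k ≤ cnt ({z : ℂ | 0 ≤ z.re ∧ yb ≤ z.im ∧ z.im ≤ yt} ∩ Metric.ball v₀ ((j + 3) * ε)) ω) ≤
      ENNReal.ofReal ((5 / 12) ^ k)

/-- LB: lower bound for the single vertex probability -/
def S_LB : Prop :=
  ∀ c : ℝ, 0 < c → ∃ C₁ : ℝ, 0 < C₁ ∧ ∀ C e : ℝ, C₁ ≤ C → 0 < e →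
    ∀ᶠ n in atTop, ENNReal.ofReal (n ^ (-(c * f0 + e))) ≤ pk (kn c n) (C * lam n)

/-- HT: transfer of the hypothesis -/
def S_HT : Prop :=
  ∀ c : ℝ, 0 < c → ∃ C₀ : ℝ, 0 < C₀ ∧ ∀ C, C₀ ≤ C → ∀ l : Filter ℝ, l ≤ atTop →
    Tendsto (fun n => prob (Sq n) (fun _ x => NZ (kn c n) x)) l (𝓝 1) →
    Tendsto (fun n => ENNReal.ofReal n * pk (kn c n) (C * lam n)) l (𝓝 0)

/-! ### Good events -/

/-- G0: no ball of small radius contains too many points -/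
def S_G0 : Prop :=
  ∀ c : ℝ, 0 < c → ∃ a : ℝ, 0 < a ∧
    Tendsto (fun n => prob (Sq n) (fun m x => ∃ i : Fin m,
      kn c n ≤ {l : Fin m | l ≠ i ∧ dist (x l) (x i) < a * lam n}.ncard)) atTop (𝓝 0)

/-- G2: every ball of large radius contains many points -/
def S_G2 : Prop :=
  ∀ c : ℝ, 0 < c → ∃ C : ℝ, 0 < C ∧
    Tendsto (fun n => prob (Sq n) (fun m x => ∃ i : Fin m,
      {l : Fin m | l ≠ i ∧ dist (x l) (x i) < C * lam n}.ncard < kn c n)) atTop (𝓝 0) ∧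
    Tendsto (fun n => prob (Sq n) (fun m x => ∃ z ∈ Sq n,
      {l : Fin m | dist (x l) z < C * lam n}.ncard < kn c n + 2)) atTop (𝓝 0)

/-- number of grid cells per side, for cells of side about `e √log n` -/
def mc (e n : ℝ) : ℕ := ⌈Real.sqrt n / (e * lam n)⌉₊

/-- side of the grid cells -/
def hc (e n : ℝ) : ℝ := Real.sqrt n / (mc e n)

/-- G1: no window has more than `q` empty cells; no empty cell near a corner -/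
def S_G1 : Prop :=
  ∀ e : ℝ, 0 < e → ∃ q : ℕ, (∀ M' : ℕ,
    Tendsto (fun n => prob (Sq n) (fun m x => ∃ a b : ℕ, a + M' ≤ mc e n ∧ b + M' ≤ mc e n ∧
      q < {c : ℕ × ℕ | c ∈ WinCells M' a b ∧ ∀ i : Fin m, x i ∉ NCell (hc e n) c}.ncard))
      atTop (𝓝 0)) ∧
    ∀ J : ℝ, Tendsto (fun n => prob (Sq n) (fun m x => ∃ c : ℕ × ℕ, c.1 < mc e n ∧ c.2 < mc e n ∧
      (∀ i : Fin m, x i ∉ NCell (hc e n) c) ∧ ∃ z ∈ NCell (hc e n) c, ∃ w ∈ corners n,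
        dist z w ≤ J * lam n)) atTop (𝓝 0)

/-! ### Deterministic reduction -/

/-- near an empty cell -/
def NearEmpty {m : ℕ} (x : Fin m → ℂ) (h s : ℝ) (mc : ℕ) (i : Fin m) : Prop :=
  ∃ c : ℕ × ℕ, c.1 < mc ∧ c.2 < mc ∧ (∀ l : Fin m, x l ∉ NCell h c) ∧
    ∀ z ∈ NCell h c, dist z (x i) ≤ s

/-- DR1: windows; `A` a union of classes -/
def S_DR1 : Prop :=
  ∀ (ℓ h r : ℝ) (mc M q m : ℕ) (x : Fin m → ℂ) (A : Set (Fin m)), 0 < h → ℓ = mc * h →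
    M = 2 * q + 1 → M ≤ mc → Real.sqrt 5 * h ≤ r → (∀ i, x i ∈ SqL ℓ) →
    (∀ a b : ℕ, a + M ≤ mc → b + M ≤ mc →
      {c : ℕ × ℕ | c ∈ WinCells M a b ∧ ∀ i : Fin m, x i ∉ NCell h c}.ncard ≤ q) →
    (∀ i j, dist (x i) (x j) ≤ r → (i ∈ A ↔ j ∈ A)) →
    (∀ i ∈ A, NearEmpty x h (Real.sqrt 2 * M * h) mc i ∧
      ∃ j ∉ A, dist (x i) (x j) ≤ Real.sqrt 2 * M * h) ∨
    (∀ i ∉ A, NearEmpty x h (Real.sqrt 2 * M * h) mc i ∧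
      ∃ j ∈ A, dist (x i) (x j) ≤ Real.sqrt 2 * M * h)

/-- DR2: minimal closed sets are strongly connected -/
def S_DR2 : Prop :=
  ∀ (m : ℕ) (E : Fin m → Fin m → Prop) (A : Set (Fin m)), A.Nonempty →
    (∀ i ∉ A, ∀ j ∈ A, ¬ E i j) →
    ∃ B : Set (Fin m), B.Nonempty ∧ B ⊆ A ∧ (∀ i ∉ B, ∀ j ∈ B, ¬ E i j) ∧
      ∀ i ∈ B, ∀ j ∈ B, Relation.ReflTransGen (fun a b => a ∈ B ∧ b ∈ B ∧ E a b) i j

/-- DR3: diameter bound -/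
def S_DR3 : Prop :=
  ∀ (ℓ h R : ℝ) (mc M M' q m : ℕ) (x : Fin m → ℂ) (A : Set (Fin m)), 0 < h → 0 < R → ℓ = mc * h →
    1 ≤ M → M' ≤ mc → (∀ i, x i ∈ SqL ℓ) →
    2 * (q * (2 * Real.sqrt 2 * M * h + 2 * R) + R + Real.sqrt 2 * M * h) + 4 * h ≤ M' * h →
    (∀ a b : ℕ, a + M' ≤ mc → b + M' ≤ mc →
      {c : ℕ × ℕ | c ∈ WinCells M' a b ∧ ∀ i : Fin m, x i ∉ NCell h c}.ncard ≤ q) →
    (∀ i ∈ A, NearEmpty x h (Real.sqrt 2 * M * h) mc i) →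
    (∀ i ∈ A, ∀ j ∈ A, Relation.ReflTransGen
      (fun a b => a ∈ A ∧ b ∈ A ∧ dist (x a) (x b) < R) i j) →
    ∀ i ∈ A, ∀ j ∈ A, dist (x i) (x j) ≤ q * (2 * Real.sqrt 2 * M * h + 2 * R)

/-- DR: the deterministic reduction -/
def S_DR : Prop :=
  ∀ (ℓ h r R : ℝ) (mc M M' q k m : ℕ) (x : Fin m → ℂ), 0 < h → 0 < r → r ≤ R → ℓ = mc * h →
    1 ≤ k → M = 2 * q + 1 → M ≤ M' → M' ≤ mc → Real.sqrt 5 * h ≤ r → (∀ i, x i ∈ SqL ℓ) →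
    2 * (q * (2 * Real.sqrt 2 * M * h + 2 * R) + R + Real.sqrt 2 * M * h) + 4 * h ≤ M' * h →
    (∀ i, {l : Fin m | l ≠ i ∧ dist (x l) (x i) < r}.ncard < k) →
    (∀ i, k ≤ {l : Fin m | l ≠ i ∧ dist (x l) (x i) < R}.ncard) →
    (∀ a b : ℕ, a + M' ≤ mc → b + M' ≤ mc →
      {c : ℕ × ℕ | c ∈ WinCells M' a b ∧ ∀ i : Fin m, x i ∉ NCell h c}.ncard ≤ q) →
    ¬ SC k x →
    ∃ A : Finset (Fin m), A.Nonempty ∧
      ((∀ i ∉ A, ∀ j ∈ A, ¬ Arc k x i j) ∨ (∀ i ∈ A, ∀ j ∉ A, ¬ Arc k x i j)) ∧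
      (∀ i ∈ A, ∀ j ∈ A, dist (x i) (x j) ≤ q * (2 * Real.sqrt 2 * M * h + 2 * R)) ∧
      ∀ i ∈ A, NearEmpty x h (Real.sqrt 2 * M * h) mc i ∧
        ∃ j ∉ A, dist (x i) (x j) ≤ Real.sqrt 2 * M * h

/-- RED: probabilistic reduction -/
def S_RED : Prop :=
  ∀ c : ℝ, 0 < c → ∃ a D d : ℝ, 0 < a ∧ 0 < D ∧ 0 < d ∧ ∀ Λ₁ : ℝ, 0 < Λ₁ →
    ∃ err : ℝ → ℝ≥0∞, Tendsto err atTop (𝓝 0) ∧ ∀ᶠ n in atTop,
      prob (Sq n) (fun _ x => ¬ SC (kn c n) x) ≤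
        prob (Sq n) (fun _ x => ¬ NZ (kn c n) x) +
        PP (Sq n) (BadI (kn c n) n (a * lam n) (D * lam n) (d * lam n) (Λ₁ * lam n)) +
        PP (Sq n) (BadO (kn c n) n (a * lam n) (D * lam n) (d * lam n) (Λ₁ * lam n)) + err n

/-- SYM: reduction to the interior and the left side -/
def S_SYM : Prop :=
  ∀ (k : ℕ) (n r D dm Λ₀ Λ₁ : ℝ), 0 < n → 0 < Λ₀ → 2 * Λ₀ ≤ Λ₁ →
    PP (Sq n) (BadI k n r D dm Λ₁) ≤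
      PP (Sq n) (BadIin k n r D dm Λ₀) + 4 * PP (Sq n) (BadIle k n r D dm Λ₀) ∧
    PP (Sq n) (BadO k n r D dm Λ₁) ≤
      PP (Sq n) (BadOin k n r D dm Λ₀) + 4 * PP (Sq n) (BadOle k n r D dm Λ₀)

/-- cells near `c₀` -/
def nb (N : ℕ) (c₀ : ℤ × ℤ) : Finset (ℤ × ℤ) :=
  (Finset.Icc (c₀.1 - N) (c₀.1 + N)) ×ˢ (Finset.Icc (c₀.2 - N) (c₀.2 + N))

/-- lower left corner of a cell -/
def llc (h : ℝ) (c : ℤ × ℤ) : ℂ := ⟨c.1 * h, c.2 * h⟩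

/-- index set of the grid of side `ε` in the square -/
def gridI (n ε : ℝ) : Finset (ℤ × ℤ) :=
  (Finset.Icc (0 : ℤ) ⌊Real.sqrt n / ε⌋) ×ˢ (Finset.Icc (0 : ℤ) ⌊Real.sqrt n / ε⌋)

/-- index set of the grid cells within distance `Λ₀` of the left side -/
def gridL (n ε Λ₀ : ℝ) : Finset (ℤ × ℤ) :=
  (Finset.Icc (0 : ℤ) ⌊Λ₀ / ε⌋) ×ˢ (Finset.Icc (0 : ℤ) ⌊Real.sqrt n / ε⌋)

/-- CLI: deterministic classification of in-isolated sets, interior -/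
def S_CLI : Prop :=
  ∀ (k : ℕ) (n r D dm ε Λ' : ℝ) (N : ℕ) (ω : Multiset ℂ), 0 < n → 0 < r → r ≤ dm → 0 < ε →
    20000 * ε ≤ r → D + dm + 10 * ε ≤ N * ε → D + 2 * dm + 20 * ε ≤ 2 * Λ' → dm ≤ Λ' →
    (∀ z ∈ ω, z ∈ Sq n) → BadIin k n r D dm (2 * Λ') ω →
    EvT k (Inn n (2 * Λ')) n r (r / 200) Λ' ω ∨
    (∃ c₀ ∈ gridI n ε, ∃ F ∈ (nb N c₀).powerset, ∃ j ∈ Finset.range (N + 1), 20000 ≤ j + 2 ∧
      (∀ x ∈ cellU ε F, ∀ y ∈ cellU ε F, dist x y ≤ 1.99 * (j * ε)) ∧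
      EvM k (Inn n (2 * Λ') ∩ Cell ε c₀) F (cellU ε F) ε (j * ε) Λ' ω) ∨
    (∃ c₀ ∈ gridI n ε, ∃ F ∈ (nb N c₀).powerset, ∃ cx ∈ nb N c₀, ∃ cz ∈ nb N c₀,
      ∃ j ∈ Finset.range (N + 1), 10000 ≤ j ∧
      (∃ p ∈ cellU ε F, ∃ q ∈ cellU ε F, 1.98 * j * ε ≤ dist p q) ∧
      ((j : ℝ) - 3) * ε ≤ dist (llc ε cx) (llc ε cz) ∧
      dist (llc ε cx) (llc ε cz) ≤ ((j : ℝ) + 4) * ε ∧
      collar (cellU ε F) (0.99 * j * ε) ⊆ Sq n ∧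
      cnt (collar (cellU ε F) (0.99 * j * ε)) ω = 0 ∧
      k ≤ cnt ((Metric.ball (llc ε cx) (((j : ℝ) + 3) * ε) \
        Metric.ball (llc ε cz) (((j : ℝ) - 3) * ε)) \ collar (cellU ε F) (0.99 * j * ε)) ω)

/-- CLL: deterministic classification of in-isolated sets, left side -/
def S_CLL : Prop :=
  ∀ (k : ℕ) (n r D dm ε Λ' : ℝ) (N : ℕ) (ω : Multiset ℂ), 0 < n → 0 < r → r ≤ dm → 0 < ε →
    20000 * ε ≤ r → D + dm + 10 * ε ≤ N * ε → D + 2 * dm + 20 * ε ≤ 2 * Λ' → dm ≤ Λ' →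
    8 * Λ' ≤ Real.sqrt n →
    (∀ z ∈ ω, z ∈ Sq n) → BadIle k n r D dm (2 * Λ') ω →
    EvT k (Lef n (2 * Λ') ∩ {v | 2 * v.re < r / 200}) n r (r / 200) Λ' ω ∨
    (∃ c₀ ∈ gridL n ε (2 * Λ'), ∃ F ∈ (nb N c₀).powerset, ∃ j ∈ Finset.range (N + 1),
      20000 ≤ j + 2 ∧ (∀ c ∈ F, 0 ≤ c.1) ∧
      (∀ x ∈ cellU ε F ∪ refl '' cellU ε F, ∀ y ∈ cellU ε F ∪ refl '' cellU ε F,
        dist x y ≤ 1.99 * (j * ε)) ∧
      EvM k (Lef n (2 * Λ') ∩ Cell ε c₀) F (cellU ε F ∪ refl '' cellU ε F) ε (j * ε) Λ' ω) ∨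
    (∃ c₀ ∈ gridL n ε (2 * Λ'), ∃ F ∈ (nb N c₀).powerset, ∃ cx ∈ nb N c₀, ∃ cz ∈ nb N c₀,
      ∃ j ∈ Finset.range (N + 1), 10000 ≤ j ∧ (∀ c ∈ F, 0 ≤ c.1) ∧
      (∃ p ∈ cellU ε F ∪ refl '' cellU ε F, ∃ q ∈ cellU ε F ∪ refl '' cellU ε F,
        1.98 * j * ε ≤ dist p q) ∧
      ((j : ℝ) - 3) * ε ≤ dist (llc ε cx) (llc ε cz) ∧
      dist (llc ε cx) (llc ε cz) ≤ ((j : ℝ) + 4) * ε ∧
      collar (cellU ε F) (0.99 * j * ε) ∩ HP ⊆ Sq n ∧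
      cnt (collar (cellU ε F) (0.99 * j * ε) ∩ HP) ω = 0 ∧
      k ≤ cnt ((Metric.ball (llc ε cx) (((j : ℝ) + 3) * ε) \
        Metric.ball (llc ε cz) (((j : ℝ) - 3) * ε)) \ collar (cellU ε F) (0.99 * j * ε)) ω)

/-- corners of cells used for the extreme points -/
def prc (h : ℝ) (c : ℤ × ℤ) : ℂ := ⟨(c.1 + 1) * h, c.2 * h⟩
def ptc (h : ℝ) (c : ℤ × ℤ) : ℂ := ⟨c.1 * h, (c.2 + 1) * h⟩

/-- outer box for the cells of the four extreme points -/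
def oBox (h : ℝ) (cl cr ct cb : ℤ × ℤ) : Set ℂ :=
  Box (cl.1 * h) ((cr.1 + 1) * h) (cb.2 * h) ((ct.2 + 1) * h)

/-- void region (interior) -/
def oU (h s : ℝ) (cl cr ct cb : ℤ × ℤ) : Set ℂ :=
  (Metric.ball (llc h cl) s ∪ Metric.ball (prc h cr) s ∪ Metric.ball (ptc h ct) s ∪
    Metric.ball (llc h cb) s) \ oBox h cl cr ct cb

/-- void region (left side) -/
def oUl (h s : ℝ) (ct cb : ℤ × ℤ) : Set ℂ :=
  {z : ℂ | 0 ≤ z.re ∧ (ct.2 + 1) * h < z.im} ∩ Metric.ball (ptc h ct) s ∪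
    {z : ℂ | 0 ≤ z.re ∧ z.im < cb.2 * h} ∩ Metric.ball (llc h cb) s

/-- COI: deterministic classification of out-closed sets, interior -/
def S_COI : Prop :=
  ∀ (k : ℕ) (n r D dm ε Λ' : ℝ) (N : ℕ) (ω : Multiset ℂ), 0 < n → 0 < r → r ≤ dm → 0 < ε →
    20000 * ε ≤ r → D + dm + 10 * ε ≤ N * ε → D + 2 * dm + 20 * ε ≤ 2 * Λ' →
    (∀ z ∈ ω, z ∈ Sq n) → BadOin k n r D dm (2 * Λ') ω →
    ∃ c₀ ∈ gridI n ε, ∃ cl ∈ nb N c₀, ∃ cr ∈ nb N c₀, ∃ ct ∈ nb N c₀, ∃ cb ∈ nb N c₀,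
      ∃ j ∈ Finset.range (N + 1), 10000 ≤ j ∧
      llc ε cl ∈ oBox ε cl cr ct cb ∧ prc ε cr ∈ oBox ε cl cr ct cb ∧
      ptc ε ct ∈ oBox ε cl cr ct cb ∧ llc ε cb ∈ oBox ε cl cr ct cb ∧
      oU ε (((j : ℝ) - 2) * ε) cl cr ct cb ⊆ Sq n ∧
      ∃ i ∈ (Finset.univ : Finset (Fin 4)),
        cnt (oU ε (((j : ℝ) - 2) * ε) cl cr ct cb) ω = 0 ∧
        k ≤ cnt (Metric.ball (![llc ε cl, prc ε cr, ptc ε ct, llc ε cb] i) (((j : ℝ) + 3) * ε) ∩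
          oBox ε cl cr ct cb) ω

/-- COL: deterministic classification of out-closed sets, left side -/
def S_COL : Prop :=
  ∀ (k : ℕ) (n r D dm ε Λ' : ℝ) (N : ℕ) (ω : Multiset ℂ), 0 < n → 0 < r → r ≤ dm → 0 < ε →
    20000 * ε ≤ r → D + dm + 10 * ε ≤ N * ε → D + 2 * dm + 20 * ε ≤ 2 * Λ' →
    8 * Λ' ≤ Real.sqrt n →
    (∀ z ∈ ω, z ∈ Sq n) → BadOle k n r D dm (2 * Λ') ω →
    ∃ c₀ ∈ gridL n ε (2 * Λ'), ∃ ct ∈ nb N c₀, ∃ cb ∈ nb N c₀,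
      ∃ j ∈ Finset.range (N + 1), 10000 ≤ j ∧ 0 ≤ ct.1 ∧ 0 ≤ cb.1 ∧
      (cb.2 : ℝ) * ε ≤ (ct.2 + 1) * ε ∧ oUl ε (((j : ℝ) - 2) * ε) ct cb ⊆ Sq n ∧
      ∃ i ∈ (Finset.univ : Finset (Fin 2)),
        cnt (oUl ε (((j : ℝ) - 2) * ε) ct cb) ω = 0 ∧
        k ≤ cnt ({z : ℂ | 0 ≤ z.re ∧ cb.2 * ε ≤ z.im ∧ z.im ≤ (ct.2 + 1) * ε} ∩
          Metric.ball (![ptc ε ct, llc ε cb] i) (((j : ℝ) + 3) * ε)) ω

/-! ### Limits -/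

/-- hypothesis along the filter -/
def HypP (c C : ℝ) (l : Filter ℝ) : Prop :=
  Tendsto (fun n => ENNReal.ofReal n * pk (kn c n) (C * lam n)) l (𝓝 0)

/-- FIN: in-isolated sets, interior: probability → 0 -/
def S_FIN : Prop :=
  ∀ c a D d C : ℝ, 0 < c → 0 < a → 0 < D → 0 < d → 0 < C → 1 ≤ c * f0 →
    ∃ C₂ : ℝ, 0 < C₂ ∧ ∀ C', C₂ ≤ C' → ∀ l : Filter ℝ, l ≤ atTop → HypP c C l →
      Tendsto (fun n => PP (Sq n) (BadIin (kn c n) n (a * lam n) (D * lam n) (d * lam n)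
        (2 * (C' * lam n)))) l (𝓝 0)

/-- FIL: in-isolated sets, left side: probability → 0 -/
def S_FIL : Prop :=
  ∀ c a D d C : ℝ, 0 < c → 0 < a → 0 < D → 0 < d → 0 < C → 1 ≤ c * f0 →
    ∃ C₂ : ℝ, 0 < C₂ ∧ ∀ C', C₂ ≤ C' → ∀ l : Filter ℝ, l ≤ atTop → HypP c C l →
      Tendsto (fun n => PP (Sq n) (BadIle (kn c n) n (a * lam n) (D * lam n) (d * lam n)
        (2 * (C' * lam n)))) l (𝓝 0)

/-- FON: out-closed sets, interior -/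
def S_FON : Prop :=
  ∀ c a D d : ℝ, 0 < c → 0 < a → 0 < D → 0 < d → 1 ≤ c * f0 →
    ∃ C₂ : ℝ, 0 < C₂ ∧ ∀ C', C₂ ≤ C' →
      Tendsto (fun n => PP (Sq n) (BadOin (kn c n) n (a * lam n) (D * lam n) (d * lam n)
        (2 * (C' * lam n)))) atTop (𝓝 0)

/-- FOL: out-closed sets, left side -/
def S_FOL : Prop :=
  ∀ c a D d : ℝ, 0 < c → 0 < a → 0 < D → 0 < d → 1 ≤ c * f0 →
    ∃ C₂ : ℝ, 0 < C₂ ∧ ∀ C', C₂ ≤ C' →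
      Tendsto (fun n => PP (Sq n) (BadOle (kn c n) n (a * lam n) (D * lam n) (d * lam n)
        (2 * (C' * lam n)))) atTop (𝓝 0)

/-- MAIN: the final theorem -/
def S_MAIN : Prop :=
  ∀ c : ℝ, 0 < c → ∀ l : Filter ℝ, l ≤ atTop →
    (Tendsto (fun n => prob (Sq n) (fun _ x => SC (kn c n) x)) l (𝓝 1) ↔
      Tendsto (fun n => prob (Sq n) (fun _ x => NZ (kn c n) x)) l (𝓝 1))

end KN
end
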