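import Mathlib

/-!
# Directed k-nearest-neighbour graph: definitions (MP_2af9b5_pr)
The plane is `ℂ`.  A configuration of `m` labelled points is `x : Fin m → ℂ`; its unordered version
is the multiset `conf x`.
-/

open MeasureTheory Set Filter Topology
open scoped ENNReal

noncomputable section

namespace KN

/-! ## Poisson process -/

/-- the multiset of the points of a labelled configuration -/
def conf {m : ℕ} (x : Fin m → ℂ) : Multiset ℂ := (Finset.univ : Finset (Fin m)).val.map x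

/-- The probability that a Poisson process of intensity 1 in `S` (number of points `m` Poisson with
mean `vol S`; given `m`, the points are i.i.d. uniform on `S`) satisfies `Q`. -/
def prob (S : Set ℂ) (Q : ∀ m : ℕ, (Fin m → ℂ) → Prop) : ℝ≥0∞ :=
  ∑' m : ℕ, ENNReal.ofReal (Real.exp (-(volume S).toReal) / m.factorial) *
    (Measure.pi fun _ : Fin m => volume.restrict S) {x | Q m x}

/-- the same for events depending on the unordered configuration only -/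
def PP (S : Set ℂ) (Q : Multiset ℂ → Prop) : ℝ≥0∞ := prob S (fun _ x => Q (conf x))

open Classical in
/-- restriction of a configuration to the set `W` -/
def res (W : Set ℂ) (ω : Multiset ℂ) : Multiset ℂ := ω.filter (fun z => z ∈ W)

/-- number of points of the configuration in `W` -/
def cnt (W : Set ℂ) (ω : Multiset ℂ) : ℕ := Multiset.card (res W ω)

/-- measurable event -/
def EMeas (Q : Multiset ℂ → Prop) : Prop := ∀ m : ℕ, MeasurableSet {x : Fin m → ℂ | Q (conf x)}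

/-- jointly measurable family of events -/
def JMeas {α : Type} [MeasurableSpace α] (Q : α → Multiset ℂ → Prop) : Prop :=
  ∀ m : ℕ, MeasurableSet {p : α × (Fin m → ℂ) | Q p.1 (conf p.2)}

/-! ## The graph -/

/-- `i → j`: fewer than `k` of the other points are strictly closer to `x i` than `x j` is. -/
def Arc (k : ℕ) {m : ℕ} (x : Fin m → ℂ) (i j : Fin m) : Prop :=
  i ≠ j ∧ {l : Fin m | l ≠ i ∧ dist (x l) (x i) < dist (x j) (x i)}.ncard < k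

/-- strongly connected (directed connected) -/
def SC (k : ℕ) {m : ℕ} (x : Fin m → ℂ) : Prop := ∀ i j, Relation.ReflTransGen (Arc k x) i j

/-- no vertex of in-degree zero -/
def NZ (k : ℕ) {m : ℕ} (x : Fin m → ℂ) : Prop := ∀ j, ∃ i, Arc k x i j

/-- the square `[0,ℓ]²` -/
def SqL (ℓ : ℝ) : Set ℂ := {z | 0 ≤ z.re ∧ z.re ≤ ℓ ∧ 0 ≤ z.im ∧ z.im ≤ ℓ}

/-- the square of area `n` -/
def Sq (n : ℝ) : Set ℂ := SqL (Real.sqrt n)

/-- `k = ⌊c log n⌋` -/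
def kn (c n : ℝ) : ℕ := ⌊c * Real.log n⌋₊

/-- the length scale `√(log n)` -/
def lam (n : ℝ) : ℝ := Real.sqrt (Real.log n)

/-! ## Events -/

/-- `P` in-isolates: all points of `P` are at distance `≥ δ` from `R`, and each point `p` of `P`
at distance `< Λ` from `v` has (with itself) at least `k+1` points of `P` at distance less than
`min (dist p v) (dist (p, R) + η)`. -/
def Iso (k : ℕ) (v : ℂ) (R : Set ℂ) (η δ Λ : ℝ) (P : Multiset ℂ) : Prop :=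
  (∀ p ∈ P, δ ≤ Metric.infDist p R) ∧
  ∀ p ∈ P, dist p v < Λ → k + 1 ≤ cnt (Metric.ball p (min (dist p v) (Metric.infDist p R + η))) P

/-- the local probability that the origin is in-isolated -/
def pk (k : ℕ) (Λ : ℝ) : ℝ≥0∞ := PP (Metric.ball 0 (2 * Λ)) (Iso k 0 {0} 0 0 Λ)

/-- closed grid cell of side `h` with integer index `c` -/
def Cell (h : ℝ) (c : ℤ × ℤ) : Set ℂ :=
  {z | c.1 * h ≤ z.re ∧ z.re ≤ (c.1 + 1) * h ∧ c.2 * h ≤ z.im ∧ z.im ≤ (c.2 + 1) * h}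

/-- union of cells -/
def cellU (h : ℝ) (F : Finset (ℤ × ℤ)) : Set ℂ := ⋃ c ∈ F, Cell h c

/-- right half plane -/
def HP : Set ℂ := {z | 0 ≤ z.re}

/-- reflection in the imaginary axis -/
def refl (z : ℂ) : ℂ := ⟨-z.re, z.im⟩

/-- the constant `ℓ = area (B(1,1) ∖ B(0,1))` -/
def lune : ℝ := (volume (Metric.ball (1 : ℂ) 1 \ Metric.ball (0 : ℂ) 1)).toReal

/-- `f0 = 3 (π/ℓ) log (4/3)` -/
def f0 : ℝ := 3 * (Real.pi / lune) * Real.log (4 / 3)

/-- the points of angle `θ` at distance `≤ √(a θ)` from `v` -/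
def starSet (v : ℂ) (a : ℝ → ℝ) : Set ℂ := {x | dist x v ^ 2 ≤ a (x - v).arg}

/-- radial area-preserving map -/
def radT (v : ℂ) (a : ℝ → ℝ) (x : ℂ) : ℂ :=
  v + (Real.sqrt (dist x v ^ 2 - a (x - v).arg) : ℂ) * Complex.exp ((x - v).arg * Complex.I)

/-! ## Bad events -/

/-- corners of the square -/
def corners (n : ℝ) : Set ℂ :=
  {0, ⟨Real.sqrt n, 0⟩, ⟨0, Real.sqrt n⟩, ⟨Real.sqrt n, Real.sqrt n⟩}

/-- `A` is in-isolated from `P` (and at distance `≥ r`), of diameter `≤ D`, at distance `≤ dm` from `P` -/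
def InI (k : ℕ) (r D dm : ℝ) (A P : Multiset ℂ) : Prop :=
  (∀ a ∈ A, ∀ p ∈ P, k + 1 ≤ cnt (Metric.ball p (dist a p)) (A + P) ∧ r ≤ dist a p) ∧
  (∀ a ∈ A, ∀ a' ∈ A, dist a a' ≤ D) ∧ (∃ a ∈ A, ∃ p ∈ P, dist a p ≤ dm)

/-- `B` is out-closed -/
def OutI (k : ℕ) (r D dm : ℝ) (B P : Multiset ℂ) : Prop :=
  B ≠ 0 ∧ (∀ b ∈ B, ∀ p ∈ P, k + 1 ≤ cnt (Metric.ball b (dist p b)) (B + P) ∧ r ≤ dist p b) ∧
  (∀ b ∈ B, ∀ b' ∈ B, dist b b' ≤ D) ∧ (∀ b ∈ B, ∃ p ∈ P, dist p b ≤ dm)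

/-- bad event, in-isolated set with at least two points, far from the corners -/
def BadI (k : ℕ) (n r D dm Λ₁ : ℝ) (ω : Multiset ℂ) : Prop :=
  ∃ A P, ω = A + P ∧ 2 ≤ Multiset.card A ∧ InI k r D dm A P ∧ ∀ a ∈ A, ∀ z ∈ corners n, Λ₁ ≤ dist a z

def BadO (k : ℕ) (n r D dm Λ₁ : ℝ) (ω : Multiset ℂ) : Prop :=
  ∃ B P, ω = B + P ∧ OutI k r D dm B P ∧ ∀ b ∈ B, ∀ z ∈ corners n, Λ₁ ≤ dist b z

/-- interior points -/
def Inn (n Λ₀ : ℝ) : Set ℂ := {v | Metric.closedBall v Λ₀ ⊆ Sq n}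

/-- points near the left side, away from the corners -/
def Lef (n Λ₀ : ℝ) : Set ℂ :=
  {v | 0 ≤ v.re ∧ v.re < Λ₀ ∧ Λ₀ ≤ v.im ∧ v.im ≤ Real.sqrt n - Λ₀}

def BadIin (k : ℕ) (n r D dm Λ₀ : ℝ) (ω : Multiset ℂ) : Prop :=
  ∃ A P, ω = A + P ∧ 2 ≤ Multiset.card A ∧ InI k r D dm A P ∧ ∃ v ∈ A, v ∈ Inn n Λ₀

def BadIle (k : ℕ) (n r D dm Λ₀ : ℝ) (ω : Multiset ℂ) : Prop :=
  ∃ A P, ω = A + P ∧ 2 ≤ Multiset.card A ∧ InI k r D dm A P ∧ ∃ v ∈ A, v ∈ Lef n Λ₀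

def BadOin (k : ℕ) (n r D dm Λ₀ : ℝ) (ω : Multiset ℂ) : Prop :=
  ∃ B P, ω = B + P ∧ OutI k r D dm B P ∧ ∃ v ∈ B, v ∈ Inn n Λ₀

def BadOle (k : ℕ) (n r D dm Λ₀ : ℝ) (ω : Multiset ℂ) : Prop :=
  ∃ B P, ω = B + P ∧ OutI k r D dm B P ∧ ∃ v ∈ B, v ∈ Lef n Λ₀

/-- the event of type T (tiny in-isolated set): `v`, `u` in the set, `u` farthest from `v` -/
def EvT (k : ℕ) (W : Set ℂ) (n r ρ Λ' : ℝ) (ω : Multiset ℂ) : Prop :=
  ∃ v u rest, ω = v ::ₘ u ::ₘ rest ∧ v ∈ W ∧ u ∈ Sq n ∧ dist u v < ρ ∧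
    Iso k v {v, u} 0 r Λ' (res (Metric.ball v (2 * Λ') \ Metric.closedBall v (dist u v)) rest)

/-- the event of type M (medium in-isolated set hitting exactly the cells of `F`), `v` in the set;
`R' = R` (interior) or `R ∪ refl '' R` (left side) -/
def EvM (k : ℕ) (W : Set ℂ) (F : Finset (ℤ × ℤ)) (R' : Set ℂ) (ε δ Λ' : ℝ) (ω : Multiset ℂ) : Prop :=
  ∃ v rest, ω = v ::ₘ rest ∧ v ∈ W ∧ v ∈ cellU ε F ∧ (∃ u ∈ R', 10 * ε ≤ dist u v) ∧
    Iso k v (cellU ε F) (Real.sqrt 2 * ε) δ Λ' (res (Metric.ball v (2 * Λ') \ cellU ε F) rest)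

/-- collar of width `s` of the set `R` -/
def collar (R : Set ℂ) (s : ℝ) : Set ℂ := {z | z ∉ R ∧ Metric.infDist z R < s}

/-- bounding box -/
def Box (xl xr yb yt : ℝ) : Set ℂ := {z | xl ≤ z.re ∧ z.re ≤ xr ∧ yb ≤ z.im ∧ z.im ≤ yt}

/-- the four symmetries of the square mapping the sides to the left side -/
def sym (n : ℝ) : Fin 4 → ℂ → ℂ := fun i z =>
  match i with
  | 0 => z
  | 1 => ⟨Real.sqrt n - z.re, z.im⟩
  | 2 => ⟨z.im, z.re⟩
  | 3 => ⟨Real.sqrt n - z.im, z.re⟩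

/-- window of `M × M` cells of side `h` with lower left cell `(a,b)` -/
def WinCells (M a b : ℕ) : Finset (ℕ × ℕ) :=
  (Finset.Ico a (a + M)) ×ˢ (Finset.Ico b (b + M))

/-- cell with natural index -/
def NCell (h : ℝ) (c : ℕ × ℕ) : Set ℂ := Cell h ((c.1 : ℤ), (c.2 : ℤ))

end KN
end
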