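import Pool.Agent.Helper89.KN.Defs
import Pool.Agent.Helper89.KN.Spec
import Pool.Agent.Helper89.KN.Base

open MeasureTheory Set Filter Topology
open scoped ENNReal

noncomputable section

namespace KN

theorem measSet_Arc (k m : ℕ) (i j : Fin m) : MeasurableSet {x : Fin m → ℂ | Arc k x i j} := by
  classical
  have h1 : ∀ x : Fin m → ℂ, {l : Fin m | l ≠ i ∧ dist (x l) (x i) < dist (x j) (x i)}.ncard =
      ∑ l : Fin m, if (l ≠ i ∧ dist (x l) (x i) < dist (x j) (x i)) then 1 else 0 := by
    intro x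
    rw [Finset.sum_boole, Set.ncard_eq_toFinset_card']
    simp
  have h2 : Measurable (fun x : Fin m → ℂ =>
      {l : Fin m | l ≠ i ∧ dist (x l) (x i) < dist (x j) (x i)}.ncard) := by
    simp only [h1]
    refine Finset.measurable_sum _ (fun l _ => ?_)
    refine Measurable.ite ?_ measurable_const measurable_const
    by_cases hl : l = i
    · simp [hl]
    · have : {a : Fin m → ℂ | l ≠ i ∧ dist (a l) (a i) < dist (a j) (a i)} =
          {a : Fin m → ℂ | dist (a l) (a i) < dist (a j) (a i)} := by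
        ext a; simp [hl]
      rw [this]
      exact measurableSet_lt (by fun_prop) (by fun_prop)
  unfold Arc
  by_cases hij : i = j
  · simp [hij]
  · have : {x : Fin m → ℂ | i ≠ j ∧ {l : Fin m | l ≠ i ∧ dist (x l) (x i) < dist (x j) (x i)}.ncard < k}
        = (fun x : Fin m → ℂ => {l : Fin m | l ≠ i ∧ dist (x l) (x i) < dist (x j) (x i)}.ncard) ⁻¹'
          (Set.Iio k) := by
      ext x; simp [hij]
    rw [this]
    exact h2 measurableSet_Iio

theorem measSet_NZ (k m : ℕ) : MeasurableSet {x : Fin m → ℂ | NZ k x} := by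
  have : {x : Fin m → ℂ | NZ k x} = ⋂ j, ⋃ i, {x : Fin m → ℂ | Arc k x i j} := by
    ext x; simp [NZ]
  rw [this]
  exact MeasurableSet.iInter (fun j => MeasurableSet.iUnion (fun i => measSet_Arc k m i j))

theorem volume_SqL (ℓ : ℝ) (h : 0 ≤ ℓ) : volume (SqL ℓ) = ENNReal.ofReal (ℓ ^ 2) := by
  have h1 : SqL ℓ = Complex.measurableEquivRealProd ⁻¹' (Icc 0 ℓ ×ˢ Icc 0 ℓ) := by
    ext z
    simp [SqL, Complex.measurableEquivRealProd, and_assoc]
    tauto
  rw [h1, Complex.volume_preserving_equiv_real_prod.measure_preimage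
    ((measurableSet_Icc.prod measurableSet_Icc).nullMeasurableSet), Measure.volume_eq_prod,
    Measure.prod_prod, Real.volume_Icc, sub_zero, ← ENNReal.ofReal_mul h, sq]

theorem volume_Sq (n : ℝ) (h : 0 ≤ n) : volume (Sq n) = ENNReal.ofReal n := by
  unfold Sq
  rw [volume_SqL _ (Real.sqrt_nonneg _), Real.sq_sqrt h]

theorem measurableSet_SqL (ℓ : ℝ) : MeasurableSet (SqL ℓ) := by
  have h1 : SqL ℓ = Complex.measurableEquivRealProd ⁻¹' (Icc 0 ℓ ×ˢ Icc 0 ℓ) := by
    ext z
    simp [SqL, Complex.measurableEquivRealProd, and_assoc]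
    tauto
  rw [h1]
  exact Complex.measurableEquivRealProd.measurable (measurableSet_Icc.prod measurableSet_Icc)

theorem measurableSet_Sq (n : ℝ) : MeasurableSet (Sq n) := measurableSet_SqL _

theorem SC_imp_NZ {k m : ℕ} (hm : m ≠ 1) {x : Fin m → ℂ} (h : SC k x) : NZ k x := by
  intro j
  -- pick another vertex
  have hm2 : 2 ≤ m := by
    have : 0 < m := j.pos
    omega
  obtain ⟨i, hi⟩ : ∃ i : Fin m, i ≠ j := by
    have : Nontrivial (Fin m) := Fin.nontrivial_iff_two_le.2 hm2
    exact exists_ne j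
  have hp := h i j
  rcases Relation.ReflTransGen.cases_tail hp with h0 | ⟨b, _, hb⟩
  · exact absurd h0.symm hi
  · exact ⟨b, hb⟩

theorem prob_one (n : ℝ) (hn : 0 ≤ n) :
    prob (Sq n) (fun m _ => m = 1) = ENNReal.ofReal (n * Real.exp (-n)) := by
  unfold prob
  rw [tsum_eq_single 1]
  · have : {x : Fin 1 → ℂ | (1 : ℕ) = 1} = univ := by ext; simp
    rw [this, Measure.pi_univ]
    simp only [Finset.univ_unique, Fin.default_eq_zero, Fin.isValue, Measure.restrict_apply_univ,
      Finset.prod_const, Finset.card_singleton, pow_one, Nat.factorial_one, Nat.cast_one, div_one]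
    rw [volume_Sq n hn, ENNReal.toReal_ofReal hn, ← ENNReal.ofReal_mul (Real.exp_nonneg _), mul_comm]
  · intro b hb
    have : {x : Fin b → ℂ | b = 1} = ∅ := by ext; simp [hb]
    rw [this]
    simp

theorem main_thm (hB : S_BASIC) (hHT : S_HT) (hLB : S_LB) (hRED : S_RED) (hSYM : S_SYM)
    (hFIN : S_FIN) (hFIL : S_FIL) (hFON : S_FON) (hFOL : S_FOL) : S_MAIN := by
  obtain ⟨hB1, hB2, hB3, hB4, hB5⟩ := hB
  intro c hc l hl
  have hfin : ∀ n : ℝ, volume (Sq n) ≠ ⊤ := by
    intro n
    unfold Sq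
    rw [volume_SqL _ (Real.sqrt_nonneg _)]
    exact ENNReal.ofReal_ne_top
  have hle1 : ∀ (n : ℝ) (Q : ∀ m : ℕ, (Fin m → ℂ) → Prop), prob (Sq n) Q ≤ 1 := by
    intro n Q
    rw [← hB4 (Sq n) (hfin n)]
    exact hB1 _ _ _ (measurableSet_Sq n) (fun _ _ _ _ => trivial)
  constructor
  · intro h
    have hle : ∀ᶠ n in l, prob (Sq n) (fun _ x => SC (kn c n) x) -
        ENNReal.ofReal (n * Real.exp (-n)) ≤ prob (Sq n) (fun _ x => NZ (kn c n) x) := by
      have h0 : ∀ᶠ n : ℝ in l, 0 ≤ n := hl (eventually_ge_atTop 0)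
      filter_upwards [h0] with n hn
      rw [tsub_le_iff_right, ← prob_one n hn]
      refine le_trans ?_ (hB2 _ _ _)
      refine hB1 _ _ _ (measurableSet_Sq n) (fun m x _ hx => ?_)
      by_cases hm : m = 1
      · exact Or.inr hm
      · exact Or.inl (SC_imp_NZ hm hx)
    have ht : Tendsto (fun n : ℝ => ENNReal.ofReal (n * Real.exp (-n))) l (𝓝 0) := by
      have h1 : Tendsto (fun n : ℝ => n * Real.exp (-n)) atTop (𝓝 0) := by
        have := Real.tendsto_pow_mul_exp_neg_atTop_nhds_zero 1
        simpa using this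
      have h2 := (ENNReal.continuous_ofReal.tendsto 0).comp h1
      rw [ENNReal.ofReal_zero] at h2
      exact h2.mono_left hl
    have hlow : Tendsto (fun n => prob (Sq n) (fun _ x => SC (kn c n) x) -
        ENNReal.ofReal (n * Real.exp (-n))) l (𝓝 1) := by
      have := ENNReal.Tendsto.sub h ht (Or.inl ENNReal.one_ne_top)
      simpa using this
    exact tendsto_of_tendsto_of_tendsto_of_le_of_le' hlow tendsto_const_nhds hle
      (Eventually.of_forall (fun n => hle1 n _))
  · intro h
    rcases l.eq_or_neBot with hbot | hne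
    · rw [hbot]; exact tendsto_bot
    -- probability of the complement
    have hcompl : Tendsto (fun n => prob (Sq n) (fun _ x => ¬ NZ (kn c n) x)) l (𝓝 0) := by
      have h1 : ∀ n, prob (Sq n) (fun _ x => ¬ NZ (kn c n) x) =
          1 - prob (Sq n) (fun _ x => NZ (kn c n) x) := by
        intro n
        have h2 := hB5 (Sq n) (fun _ x => NZ (kn c n) x) (hfin n) (fun m => measSet_NZ _ m)
        rw [← h2]
        rw [ENNReal.add_sub_cancel_left (ne_of_lt (lt_of_le_of_lt (hle1 n _) ENNReal.one_lt_top))]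
      simp only [h1]
      have := ENNReal.Tendsto.sub (tendsto_const_nhds (x := (1 : ℝ≥0∞)) (f := l)) h
        (Or.inl ENNReal.one_ne_top)
      simpa using this
    obtain ⟨C₀, hC₀, hHT'⟩ := hHT c hc
    obtain ⟨C₁, hC₁, hLB'⟩ := hLB c hc
    set C := max C₀ C₁ with hCdef
    have hCpos : 0 < C := lt_of_lt_of_le hC₀ (le_max_left _ _)
    have hHyp : HypP c C l := hHT' C (le_max_left _ _) l hl h
    -- c * f0 ≥ 1
    have hcf : 1 ≤ c * f0 := by
      by_contra hcon
      push Not at hcon
      set e := 1 - c * f0 with he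
      have hepos : 0 < e := by linarith
      have h1 := hLB' C e (le_max_right _ _) hepos
      have h2 : ∀ᶠ n in l, (1 : ℝ≥0∞) ≤ ENNReal.ofReal n * pk (kn c n) (C * lam n) := by
        filter_upwards [hl h1, hl (eventually_ge_atTop (1 : ℝ))] with n hn hn1
        have h3 : ENNReal.ofReal n * ENNReal.ofReal (n ^ (-(c * f0 + e))) = 1 := by
          rw [← ENNReal.ofReal_mul (by linarith)]
          have : c * f0 + e = 1 := by rw [he]; ring
          rw [this, Real.rpow_neg_one, mul_inv_cancel₀ (by linarith), ENNReal.ofReal_one]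
        calc (1 : ℝ≥0∞) = ENNReal.ofReal n * ENNReal.ofReal (n ^ (-(c * f0 + e))) := h3.symm
          _ ≤ _ := by gcongr
      have h4 := hHyp.eventually (gt_mem_nhds (zero_lt_one))
      obtain ⟨n, hn1, hn2⟩ := (h2.and h4).exists
      exact absurd hn1 (not_le.2 hn2)
    obtain ⟨a, D, d, ha, hD, hd, hred⟩ := hRED c hc
    obtain ⟨C1, hC1, hF1⟩ := hFIN c a D d C hc ha hD hd hCpos hcf
    obtain ⟨C2, hC2, hF2⟩ := hFIL c a D d C hc ha hD hd hCpos hcf
    obtain ⟨C3, hC3, hF3⟩ := hFON c a D d hc ha hD hd hcf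
    obtain ⟨C4, hC4, hF4⟩ := hFOL c a D d hc ha hD hd hcf
    set C' := max (max C1 C2) (max C3 C4) with hC'def
    have hC'1 : C1 ≤ C' := le_trans (le_max_left _ _) (le_max_left _ _)
    have hC'2 : C2 ≤ C' := le_trans (le_max_right _ _) (le_max_left _ _)
    have hC'3 : C3 ≤ C' := le_trans (le_max_left _ _) (le_max_right _ _)
    have hC'4 : C4 ≤ C' := le_trans (le_max_right _ _) (le_max_right _ _)
    have hC'pos : 0 < C' := lt_of_lt_of_le hC1 hC'1
    obtain ⟨err, herr, hrede⟩ := hred (4 * C') (by linarith)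
    have t1 := hF1 C' hC'1 l hl hHyp
    have t2 := hF2 C' hC'2 l hl hHyp
    have t3 := (hF3 C' hC'3).mono_left hl
    have t4 := (hF4 C' hC'4).mono_left hl
    -- upper bound
    have hub : ∀ᶠ n in l, prob (Sq n) (fun _ x => ¬ SC (kn c n) x) ≤
        prob (Sq n) (fun _ x => ¬ NZ (kn c n) x) +
        (PP (Sq n) (BadIin (kn c n) n (a * lam n) (D * lam n) (d * lam n) (2 * (C' * lam n))) +
          4 * PP (Sq n) (BadIle (kn c n) n (a * lam n) (D * lam n) (d * lam n) (2 * (C' * lam n)))) +
        (PP (Sq n) (BadOin (kn c n) n (a * lam n) (D * lam n) (d * lam n) (2 * (C' * lam n))) +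
          4 * PP (Sq n) (BadOle (kn c n) n (a * lam n) (D * lam n) (d * lam n) (2 * (C' * lam n)))) +
        err n := by
      filter_upwards [hl hrede, hl (eventually_gt_atTop (1 : ℝ))] with n hn hn1
      have hlam : 0 < lam n := by
        unfold lam
        exact Real.sqrt_pos.2 (Real.log_pos hn1)
      have hs := hSYM (kn c n) n (a * lam n) (D * lam n) (d * lam n) (2 * (C' * lam n))
        (4 * C' * lam n) (by linarith) (by positivity) (by nlinarith)
      refine le_trans hn ?_
      gcongr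
      · exact hs.1
      · exact hs.2
    have hz : Tendsto (fun n => prob (Sq n) (fun _ x => ¬ NZ (kn c n) x) +
        (PP (Sq n) (BadIin (kn c n) n (a * lam n) (D * lam n) (d * lam n) (2 * (C' * lam n))) +
          4 * PP (Sq n) (BadIle (kn c n) n (a * lam n) (D * lam n) (d * lam n) (2 * (C' * lam n)))) +
        (PP (Sq n) (BadOin (kn c n) n (a * lam n) (D * lam n) (d * lam n) (2 * (C' * lam n))) +
          4 * PP (Sq n) (BadOle (kn c n) n (a * lam n) (D * lam n) (d * lam n) (2 * (C' * lam n)))) +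
        err n) l (𝓝 0) := by
      have t2' := ENNReal.Tendsto.const_mul (a := 4) t2 (Or.inr (by simp))
      have t4' := ENNReal.Tendsto.const_mul (a := 4) t4 (Or.inr (by simp))
      have := ((hcompl.add (t1.add t2')).add (t3.add t4')).add (herr.mono_left hl)
      simpa using this
    have hSC0 : Tendsto (fun n => prob (Sq n) (fun _ x => ¬ SC (kn c n) x)) l (𝓝 0) :=
      tendsto_of_tendsto_of_tendsto_of_le_of_le' tendsto_const_nhds hz
        (Eventually.of_forall (fun _ => zero_le)) hub
    have hlow : ∀ n, 1 - prob (Sq n) (fun _ x => ¬ SC (kn c n) x) ≤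
        prob (Sq n) (fun _ x => SC (kn c n) x) := by
      intro n
      rw [tsub_le_iff_right, ← hB4 (Sq n) (hfin n)]
      refine le_trans ?_ (hB2 _ _ _)
      refine hB1 _ _ _ (measurableSet_Sq n) (fun m x _ _ => ?_)
      exact em _
    have hlow' : Tendsto (fun n => 1 - prob (Sq n) (fun _ x => ¬ SC (kn c n) x)) l (𝓝 1) := by
      have := ENNReal.Tendsto.sub (tendsto_const_nhds (x := (1 : ℝ≥0∞)) (f := l)) hSC0
        (Or.inl ENNReal.one_ne_top)
      simpa using this
    exact tendsto_of_tendsto_of_tendsto_of_le_of_le hlow' tendsto_const_nhds hlow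
      (fun n => hle1 n _)

end KN
end
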