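import Pool.Agent.Helper89.KN.Defs
import Pool.Agent.Helper89.KN.Spec
import Pool.Agent.Helper89.KN.Base

open MeasureTheory Set Filter Topology
open scoped ENNReal

noncomputable section

namespace KN

theorem mb_thm (hTM : S_TM) (hMGEO : S_MGEO) : S_MB := by
  intro k v u F ε δ Λ Λ' hε hεδ hv hu hdiam hduv hΛ hΛ' hΛΛ'
  obtain ⟨a, ham, ha0, haM, hi, hii, harea⟩ := hMGEO v u F ε δ hε hεδ hv hu hdiam hduv
  have h := hTM k v (cellU ε F) (Real.sqrt 2 * ε) δ Λ Λ' (5 * δ ^ 2) a ham ha0 haM hΛ hΛ' hΛΛ' hv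
    hi hii
  refine le_trans h ?_
  gcongr

end KN
end
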