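import Pool.Agent.Helper89.KN.Defs
import Pool.Agent.Helper89.KN.Spec
import Pool.Agent.Helper89.KN.Base

open MeasureTheory Set Filter Topology
open scoped ENNReal

noncomputable section

namespace KN

theorem law_cos (v w x : ℂ) : dist x w ^ 2 = dist x v ^ 2 + dist w v ^ 2 -
    2 * dist x v * dist w v * Real.cos ((x - v).arg - (w - v).arg) := by
  have nsq : ∀ z : ℂ, ‖z‖ ^ 2 = z.re ^ 2 + z.im ^ 2 := by
    intro z
    rw [← Complex.normSq_eq_norm_sq, Complex.normSq_apply]; ring
  have h1 : dist x w = ‖(x - v) - (w - v)‖ := by rw [dist_eq_norm]; congr 1; ring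
  rw [h1, dist_eq_norm x v, dist_eq_norm w v]
  set X := x - v
  set W := w - v
  have hXr : ‖X‖ * Real.cos X.arg = X.re := Complex.norm_mul_cos_arg X
  have hXi : ‖X‖ * Real.sin X.arg = X.im := Complex.norm_mul_sin_arg X
  have hWr : ‖W‖ * Real.cos W.arg = W.re := Complex.norm_mul_cos_arg W
  have hWi : ‖W‖ * Real.sin W.arg = W.im := Complex.norm_mul_sin_arg W
  rw [Real.cos_sub]
  have h2 : 2 * ‖X‖ * ‖W‖ * (Real.cos X.arg * Real.cos W.arg + Real.sin X.arg * Real.sin W.arg) =
      2 * (X.re * W.re + X.im * W.im) := by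
    rw [← hXr, ← hXi, ← hWr, ← hWi]; ring
  rw [h2, nsq, nsq X, nsq W]
  simp only [Complex.sub_re, Complex.sub_im]
  ring

theorem tb_thm (hTM : S_TM) (hRM : S_RM) : S_TB := by
  intro k v w R δ Λ Λ' hδ hv hw hwv hΛ hΛ' hΛΛ'
  set t := dist w v with ht
  have ht0 : 0 ≤ t := dist_nonneg
  have hinf : ∀ x, Metric.infDist x R ≤ dist x v := fun x => Metric.infDist_le_dist_of_mem hv
  have hinfw : ∀ x, Metric.infDist x R ≤ dist x w := fun x => Metric.infDist_le_dist_of_mem hw
  -- the interval of angles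
  set θw := (w - v).arg with hθw
  obtain ⟨α, β, hαβ, hαπ, hβπ, hcos⟩ : ∃ α β : ℝ, β - α = Real.pi / 4 ∧ -Real.pi < α ∧ β ≤ Real.pi ∧
      ∀ θ ∈ Icc α β, |θ - θw| ≤ Real.pi / 4 := by
    have h1 := Complex.neg_pi_lt_arg (w - v)
    have h2 := Complex.arg_le_pi (w - v)
    rw [← hθw] at h1 h2
    have hpi := Real.pi_pos
    rcases le_or_gt θw 0 with h | h
    · refine ⟨θw, θw + Real.pi / 4, by ring, h1, by linarith, ?_⟩
      rintro θ ⟨h3, h4⟩
      rw [abs_le]; constructor <;> linarith
    · refine ⟨θw - Real.pi / 4, θw, by ring, by linarith, h2, ?_⟩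
      rintro θ ⟨h3, h4⟩
      rw [abs_le]; constructor <;> linarith
  set c := 0.65 * δ * t with hc
  have hc0 : 0 ≤ c := by positivity
  have hcδ : c ≤ 0.065 * δ ^ 2 := by rw [hc]; nlinarith
  set a : ℝ → ℝ := (Icc α β).indicator (fun _ => c) with ha
  have ham : Measurable a := measurable_const.indicator measurableSet_Icc
  have ha0 : ∀ θ, 0 ≤ a θ := fun θ => Set.indicator_nonneg (fun _ _ => hc0) θ
  have hac : ∀ θ, a θ ≤ c := by
    intro θ
    by_cases h : θ ∈ Icc α β
    · rw [ha, Set.indicator_of_mem h]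
    · rw [ha, Set.indicator_of_notMem h]; exact hc0
  have haM : ∀ θ, a θ ≤ δ ^ 2 := fun θ => le_trans (hac θ) (by nlinarith)
  -- condition (i)
  have hi : ∀ x, δ ≤ Metric.infDist x R → a (x - v).arg ≤
      dist x v ^ 2 - ((dist x v + min (dist x v) (Metric.infDist x R + 0)) / 2) ^ 2 := by
    intro x hx
    rw [add_zero]
    set s := dist x v with hs
    have hsδ : δ ≤ s := le_trans hx (hinf x)
    have hI0 : 0 ≤ Metric.infDist x R := Metric.infDist_nonneg
    have hm0 : 0 ≤ min s (Metric.infDist x R) := le_min (by linarith) hI0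
    by_cases h : (x - v).arg ∈ Icc α β
    · rw [ha, Set.indicator_of_mem h]
      have h1 := hcos _ h
      have h2 : 0.707 ≤ Real.cos ((x - v).arg - θw) := by
        have h3 : Real.cos (Real.pi / 4) ≤ Real.cos ((x - v).arg - θw) := by
          rw [← Real.cos_abs ((x - v).arg - θw)]
          exact Real.cos_le_cos_of_nonneg_of_le_pi (abs_nonneg _)
            (by linarith [Real.pi_pos]) h1
        rw [Real.cos_pi_div_four] at h3
        have h4 : (1.414 : ℝ) ≤ Real.sqrt 2 := by
          apply Real.le_sqrt_of_sq_le; norm_num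
        linarith
      have h3 := law_cos v w x
      rw [← hs, ← ht, ← hθw] at h3
      have hst : 10 * t ≤ s := by linarith
      have h4 : dist x w ^ 2 ≤ (s - 0.67 * t) ^ 2 := by
        rw [h3]
        have : 0 ≤ s * t := by positivity
        nlinarith
      have h5 : dist x w ≤ s - 0.67 * t := by
        have h6 : 0 ≤ s - 0.67 * t := by linarith
        exact (abs_le.1 (abs_le_of_sq_le_sq h4 h6)).2
      have h6 : min s (Metric.infDist x R) ≤ s - 0.67 * t :=
        le_trans (min_le_right _ _) (le_trans (hinfw x) h5)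
      have h7 : ((s + min s (Metric.infDist x R)) / 2) ^ 2 ≤ (s - 0.335 * t) ^ 2 := by
        apply pow_le_pow_left₀ (by positivity)
        linarith
      have h8 : c ≤ 0.65 * s * t := by rw [hc]; nlinarith
      nlinarith
    · rw [ha, Set.indicator_of_notMem h]
      have h6 : min s (Metric.infDist x R) ≤ s := min_le_left _ _
      have h7 : ((s + min s (Metric.infDist x R)) / 2) ^ 2 ≤ s ^ 2 := by
        apply pow_le_pow_left₀ (by linarith)
        linarith
      linarith
  have hii : ∀ x ∈ starSet v a, Metric.infDist x R < δ := by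
    intro x hx
    have hx' : dist x v ^ 2 ≤ a (x - v).arg := hx
    have h1 : dist x v ^ 2 < δ ^ 2 := by
      have := hac (x - v).arg
      nlinarith
    exact lt_of_le_of_lt (hinf x) (lt_of_pow_lt_pow_left₀ 2 hδ.le h1)
  have hmain := hTM k v R 0 δ Λ Λ' (δ ^ 2) a ham ha0 haM hΛ hΛ' hΛΛ' hv hi hii
  refine le_trans hmain ?_
  have harea : δ * t / 4 ≤ (volume (starSet v a)).toReal := by
    obtain ⟨_, _, hvol⟩ := hRM v a (δ ^ 2) ham ha0 haM
    have hlow : ENNReal.ofReal (δ * t / 4) ≤ volume (starSet v a) := by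
      rw [hvol]
      calc ENNReal.ofReal (δ * t / 4) ≤ ENNReal.ofReal (c / 2) * ENNReal.ofReal (β - α) := by
            rw [← ENNReal.ofReal_mul (by positivity)]
            apply ENNReal.ofReal_le_ofReal
            rw [hαβ, hc]
            have : (3.1 : ℝ) < Real.pi := by linarith [Real.pi_gt_d2]
            have h0 : 0 ≤ δ * t := by positivity
            nlinarith
        _ = ∫⁻ θ in Icc α β, ENNReal.ofReal (c / 2) := by
            rw [setLIntegral_const, Real.volume_Icc]
        _ = ∫⁻ θ in Icc α β, ENNReal.ofReal (a θ / 2) := by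
            apply setLIntegral_congr_fun measurableSet_Icc
            intro θ hθ
            simp only [ha, Set.indicator_of_mem hθ]
        _ ≤ ∫⁻ θ in Ioc (-Real.pi) Real.pi, ENNReal.ofReal (a θ / 2) := by
            apply lintegral_mono_set
            intro θ hθ
            exact ⟨lt_of_lt_of_le hαπ hθ.1, le_trans hθ.2 hβπ⟩
    have hfin : volume (starSet v a) ≠ ⊤ := by
      have hsub : starSet v a ⊆ Metric.closedBall v δ := by
        intro x hx
        have hx' : dist x v ^ 2 ≤ a (x - v).arg := hx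
        rw [Metric.mem_closedBall]
        have h1 : dist x v ^ 2 ≤ δ ^ 2 := le_trans hx' (haM _)
        exact (abs_le.1 (abs_le_of_sq_le_sq h1 hδ.le)).2
      exact ne_top_of_le_ne_top measure_closedBall_lt_top.ne (measure_mono hsub)
    exact (ENNReal.ofReal_le_iff_le_toReal hfin).1 hlow
  gcongr

end KN
end
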