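import Pool.Agent.Helper89.KN.Defs
import Pool.Agent.Helper89.KN.Spec
import Pool.Agent.Helper89.KN.Base

open MeasureTheory Set Filter Topology
open scoped ENNReal

noncomputable section

namespace KN

theorem tlem_real (x1 x2 y1 y2 s u d τ σ : ℝ) (hs : s ^ 2 = x1 ^ 2 + x2 ^ 2) (hs0 : 0 < s)
    (hu : u ^ 2 = y1 ^ 2 + y2 ^ 2) (hu0 : 0 ≤ u) (hd0 : 0 < d) (hds : d ≤ s)
    (hyx : (y1 - x1) ^ 2 + (y2 - x2) ^ 2 < d ^ 2) (hτ : (s + d) / 2 ≤ τ * s) (hσ0 : 0 < σ)
    (hσ1 : σ ≤ 1) : (σ * y1 - τ * x1) ^ 2 + (σ * y2 - τ * x2) ^ 2 < (τ * s) ^ 2 := by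
  set q := 2 * (x1 * y1 + x2 * y2) with hq
  have h1 : s ^ 2 + u ^ 2 - d ^ 2 < q := by rw [hq, hs, hu]; nlinarith
  have hcs : q ≤ 2 * (s * u) := by
    have h2 : (x1 * y1 + x2 * y2) ^ 2 ≤ (s * u) ^ 2 := by
      have : (s * u) ^ 2 = (x1 ^ 2 + x2 ^ 2) * (y1 ^ 2 + y2 ^ 2) := by rw [mul_pow, hs, hu]
      rw [this]; nlinarith [sq_nonneg (x1 * y2 - x2 * y1)]
    have h3 : x1 * y1 + x2 * y2 ≤ s * u := by
      have := abs_le_of_sq_le_sq h2 (by positivity : 0 ≤ s * u)
      exact le_trans (le_abs_self _) this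
    rw [hq]; linarith
  have hus : u < s + d := by
    have h4 : (u - s) ^ 2 < d ^ 2 := by nlinarith
    have h5 := abs_lt_of_sq_lt_sq h4 hd0.le
    linarith [(abs_lt.1 h5).2]
  have hq0 : 0 < q := by nlinarith
  have ht : s * u ^ 2 < τ * s * q := by
    have h6 : (s + d) / 2 * (s ^ 2 + u ^ 2 - d ^ 2) < (s + d) / 2 * q :=
      mul_lt_mul_of_pos_left h1 (by linarith)
    have h7 : (s + d) / 2 * q ≤ τ * s * q := mul_le_mul_of_nonneg_right hτ hq0.le
    have h8 : s * u ^ 2 ≤ (s + d) / 2 * (s ^ 2 + u ^ 2 - d ^ 2) := by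
      have h9 : 0 ≤ (s - d) * ((s + d) ^ 2 - u ^ 2) := by
        apply mul_nonneg (by linarith)
        nlinarith
      nlinarith
    linarith
  have ht2 : u ^ 2 < τ * q := by
    have : s * u ^ 2 < s * (τ * q) := by nlinarith
    exact lt_of_mul_lt_mul_left this hs0.le
  have h10 : (σ * y1 - τ * x1) ^ 2 + (σ * y2 - τ * x2) ^ 2 =
      σ * (σ * u ^ 2 - τ * q) + (τ * s) ^ 2 := by
    rw [hq, hu, mul_pow, hs]; ring
  rw [h10]
  have h11 : σ * u ^ 2 ≤ u ^ 2 := by nlinarith [sq_nonneg u]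
  have : σ * (σ * u ^ 2 - τ * q) < 0 := mul_neg_of_pos_of_neg hσ0 (by linarith)
  linarith

/-- the radial map is multiplication by a factor -/
theorem radT_sub (v : ℂ) (a : ℝ → ℝ) (x : ℂ) (hx : x ≠ v) :
    radT v a x - v = ((Real.sqrt (dist x v ^ 2 - a (x - v).arg) / dist x v : ℝ) : ℂ) * (x - v) := by
  have h1 : ((dist x v : ℝ) : ℂ) * Complex.exp ((x - v).arg * Complex.I) = x - v := by
    rw [dist_eq_norm]
    exact Complex.norm_mul_exp_arg_mul_I (x - v)
  have h2 : (dist x v : ℝ) ≠ 0 := dist_ne_zero.2 hx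
  have h3 : ((dist x v : ℝ) : ℂ) ≠ 0 := by exact_mod_cast h2
  unfold radT
  rw [add_sub_cancel_left]
  have h4 : (((Real.sqrt (dist x v ^ 2 - a (x - v).arg) / dist x v : ℝ) : ℂ)) * (x - v) =
      ((Real.sqrt (dist x v ^ 2 - a (x - v).arg) / dist x v : ℝ) : ℂ) *
        (((dist x v : ℝ) : ℂ) * Complex.exp ((x - v).arg * Complex.I)) := by rw [h1]
  rw [h4]
  push_cast
  rw [← mul_assoc, div_mul_cancel₀ _ h3]

theorem dist_radT (v : ℂ) (a : ℝ → ℝ) (x : ℂ) :
    dist (radT v a x) v = Real.sqrt (dist x v ^ 2 - a (x - v).arg) := by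
  rw [dist_eq_norm]
  unfold radT
  rw [add_sub_cancel_left, norm_mul, Complex.norm_exp_ofReal_mul_I, mul_one, Complex.norm_real,
    Real.norm_eq_abs, abs_of_nonneg (Real.sqrt_nonneg _)]

theorem tlemma (v x y : ℂ) (a : ℝ → ℝ) (d : ℝ) (ha : ∀ θ, 0 ≤ a θ) (hx : x ∉ starSet v a)
    (hy : y ∉ starSet v a) (hd : d ≤ dist x v) (hyx : dist y x < d)
    (hax : a (x - v).arg ≤ dist x v ^ 2 - ((dist x v + d) / 2) ^ 2) :
    dist (radT v a y) (radT v a x) < dist (radT v a x) v := by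
  have hx' : a (x - v).arg < dist x v ^ 2 := by
    unfold starSet at hx; simpa using hx
  have hy' : a (y - v).arg < dist y v ^ 2 := by
    unfold starSet at hy; simpa using hy
  have hs0 : 0 < dist x v := by
    rcases (dist_nonneg (x := x) (y := v)).eq_or_lt with h | h
    · rw [← h] at hx'; have := ha (x - v).arg; nlinarith
    · exact h
  have hu0 : 0 < dist y v := by
    rcases (dist_nonneg (x := y) (y := v)).eq_or_lt with h | h
    · rw [← h] at hy'; have := ha (y - v).arg; nlinarith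
    · exact h
  have hxv : x ≠ v := dist_pos.1 hs0
  have hyv : y ≠ v := dist_pos.1 hu0
  have hd0 : 0 < d := lt_of_le_of_lt dist_nonneg hyx
  set s := dist x v with hs
  set u := dist y v with hu
  set τ := Real.sqrt (s ^ 2 - a (x - v).arg) / s with hτ
  set σ := Real.sqrt (u ^ 2 - a (y - v).arg) / u with hσ
  have hTx : radT v a x - v = (τ : ℂ) * (x - v) := radT_sub v a x hxv
  have hTy : radT v a y - v = (σ : ℂ) * (y - v) := radT_sub v a y hyv
  have hτs : τ * s = Real.sqrt (s ^ 2 - a (x - v).arg) := by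
    rw [hτ, div_mul_cancel₀ _ hs0.ne']
  have hσ0 : 0 < σ := div_pos (Real.sqrt_pos.2 (by linarith)) hu0
  have hσ1 : σ ≤ 1 := by
    rw [hσ, div_le_one hu0]
    rw [Real.sqrt_le_left hu0.le]
    have := ha (y - v).arg
    linarith
  have hτ1 : (s + d) / 2 ≤ τ * s := by
    rw [hτs]
    apply Real.le_sqrt_of_sq_le
    linarith
  have nsq : ∀ z : ℂ, ‖z‖ ^ 2 = z.re ^ 2 + z.im ^ 2 := by
    intro z
    rw [← Complex.normSq_eq_norm_sq, Complex.normSq_apply]; ring
  have key := tlem_real (x - v).re (x - v).im (y - v).re (y - v).im s u d τ σ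
    (by rw [hs, dist_eq_norm, nsq]) hs0 (by rw [hu, dist_eq_norm, nsq]) hu0.le hd0 hd
    (by
      have h1 : dist y x ^ 2 < d ^ 2 := by
        have := dist_nonneg (x := y) (y := x)
        nlinarith
      have h2 : dist y x ^ 2 = ((y - v).re - (x - v).re) ^ 2 + ((y - v).im - (x - v).im) ^ 2 := by
        rw [dist_eq_norm, nsq]
        simp only [Complex.sub_re, Complex.sub_im]
        ring
      linarith) hτ1 hσ0 hσ1
  have h3 : dist (radT v a y) (radT v a x) ^ 2 =
      (σ * (y - v).re - τ * (x - v).re) ^ 2 + (σ * (y - v).im - τ * (x - v).im) ^ 2 := by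
    rw [dist_eq_norm]
    have : radT v a y - radT v a x = (σ : ℂ) * (y - v) - (τ : ℂ) * (x - v) := by
      rw [← hTx, ← hTy]; ring
    rw [this, nsq]
    simp
  have h4 : dist (radT v a x) v = τ * s := by rw [dist_radT, hτs]
  rw [h4]
  have h5 : 0 ≤ τ * s := by rw [hτs]; exact Real.sqrt_nonneg _
  rw [← h3] at key
  exact lt_of_pow_lt_pow_left₀ 2 h5 key

theorem infDist_sing (x v : ℂ) : Metric.infDist x {v} = dist x v := Metric.infDist_singleton

/-- the deterministic part of the comparison -/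
theorem iso_radT (k : ℕ) (v : ℂ) (R : Set ℂ) (η δ Λ Λ' M : ℝ) (a : ℝ → ℝ) (ha : ∀ θ, 0 ≤ a θ)
    (haM : ∀ θ, a θ ≤ M) (hΛ : 0 < Λ) (hΛ' : 0 < Λ') (hM : Λ ^ 2 + M ≤ Λ' ^ 2)
    (hi : ∀ x, δ ≤ Metric.infDist x R → a (x - v).arg ≤
      dist x v ^ 2 - ((dist x v + min (dist x v) (Metric.infDist x R + η)) / 2) ^ 2)
    (P : Multiset ℂ) (hP : ∀ p ∈ P, p ∉ starSet v a) (hIso : Iso k v R η δ Λ' P) :
    Iso k v {v} 0 0 Λ
      ((res ((starSet v a)ᶜ ∩ radT v a ⁻¹' Metric.ball v (2 * Λ)) P).map (radT v a)) := by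
  refine ⟨fun p _ => Metric.infDist_nonneg, ?_⟩
  intro p' hp' hp'v
  obtain ⟨x, hx, rfl⟩ := Multiset.mem_map.1 hp'
  rw [mem_res] at hx
  obtain ⟨hxP, hxS⟩ := hx
  have hxst : x ∉ starSet v a := hP x hxP
  have hmin : min (dist (radT v a x) v) (Metric.infDist (radT v a x) {v} + 0) =
      dist (radT v a x) v := by
    rw [infDist_sing, add_zero, min_self]
  rw [hmin]
  have hdx : dist x v < Λ' := by
    have h1 : dist (radT v a x) v ^ 2 = dist x v ^ 2 - a (x - v).arg := by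
      rw [dist_radT, Real.sq_sqrt]
      unfold starSet at hxst
      simp only [Set.mem_ofPred_eq, not_le] at hxst
      linarith
    have h2 : dist (radT v a x) v ^ 2 < Λ ^ 2 := by
      have := dist_nonneg (x := radT v a x) (y := v)
      nlinarith
    have h3 : dist x v ^ 2 < Λ' ^ 2 := by
      have := haM (x - v).arg
      linarith
    exact lt_of_pow_lt_pow_left₀ 2 hΛ'.le h3
  have hcount := hIso.2 x hxP hdx
  refine le_trans hcount ?_
  rw [cnt_map, cnt_res]
  refine cnt_mono' (fun y hy hyb => ?_)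
  rw [Metric.mem_ball] at hyb
  have hyst : y ∉ starSet v a := hP y hy
  have hT := tlemma v x y a (min (dist x v) (Metric.infDist x R + η)) ha hxst hyst
    (min_le_left _ _) hyb (hi x (hIso.1 x hxP))
  refine ⟨?_, hyst, ?_⟩
  · show radT v a y ∈ Metric.ball (radT v a x) (dist (radT v a x) v)
    rw [Metric.mem_ball]; exact hT
  · show radT v a y ∈ Metric.ball v (2 * Λ)
    rw [Metric.mem_ball]
    calc dist (radT v a y) v ≤ dist (radT v a y) (radT v a x) + dist (radT v a x) v :=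
          dist_triangle _ _ _
      _ < 2 * Λ := by linarith

theorem pp_translate (hMAPE : S_MAPE) (k : ℕ) (v : ℂ) (Λ : ℝ) :
    PP (Metric.ball v (2 * Λ)) (Iso k v {v} 0 0 Λ) = pk k Λ := by
  have hT : MeasurePreserving (fun z : ℂ => z + v) volume volume :=
    measurePreserving_add_right volume v
  have h := hMAPE (Metric.ball 0 (2 * Λ)) (MeasurableEquiv.addRight v) hT (Iso k v {v} 0 0 Λ)
  have h1 : (MeasurableEquiv.addRight v : ℂ ≃ᵐ ℂ) '' Metric.ball 0 (2 * Λ) =
      Metric.ball v (2 * Λ) := by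
    ext z
    simp only [Set.mem_image, Metric.mem_ball, dist_zero_right]
    constructor
    · rintro ⟨y, hy, rfl⟩
      simpa [MeasurableEquiv.addRight, dist_eq_norm] using hy
    · intro hz
      refine ⟨z - v, by rwa [dist_eq_norm] at hz, ?_⟩
      simp [MeasurableEquiv.addRight]
  rw [h1] at h
  rw [← h]
  unfold pk
  congr 1
  funext ω
  apply propext
  have hcoe : ∀ z : ℂ, (MeasurableEquiv.addRight v : ℂ ≃ᵐ ℂ) z = z + v := fun z => rfl
  unfold Iso
  have hball : ∀ (z : ℂ) (r : ℝ), ((MeasurableEquiv.addRight v : ℂ ≃ᵐ ℂ) : ℂ → ℂ) ⁻¹'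
      Metric.ball (z + v) r = Metric.ball z r := by
    intro z r
    ext w
    simp [hcoe, dist_eq_norm]
  constructor
  · rintro ⟨_, h2⟩
    refine ⟨fun p _ => Metric.infDist_nonneg, fun p hp hpv => ?_⟩
    have h3 := h2 (p + v) (Multiset.mem_map.2 ⟨p, hp, rfl⟩) (by
      rw [dist_eq_norm, add_sub_cancel_right]; simpa using hpv)
    rw [infDist_sing, cnt_map, hball] at h3
    rw [infDist_sing]
    have h4 : dist (p + v) v = dist p 0 := by simp [dist_eq_norm]
    rwa [h4] at h3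
  · rintro ⟨_, h2⟩
    refine ⟨fun p _ => Metric.infDist_nonneg, fun p' hp' hpv => ?_⟩
    obtain ⟨p, hp, rfl⟩ := Multiset.mem_map.1 hp'
    rw [hcoe] at hpv ⊢
    have h4 : dist (p + v) v = dist p 0 := by simp [dist_eq_norm]
    rw [h4] at hpv
    have h3 := h2 p hp hpv
    rw [infDist_sing] at h3
    rw [infDist_sing, h4, cnt_map, hball]
    exact h3

theorem tm_thm (hB : S_BASIC) (hRM : S_RM) (hVOID : S_VOID) (hRES : S_RES) (hMAP : S_MAP)
    (hMAPE : S_MAPE) (hISOM : S_ISOM) : S_TM := by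
  obtain ⟨hB1, -⟩ := hB
  intro k v R η δ Λ Λ' M a hmeas ha haM hΛ hΛ' hM hvR hi hii
  obtain ⟨hSt, hT, -⟩ := hRM v a M hmeas ha haM
  set St := starSet v a with hStdef
  set W := Metric.ball v (2 * Λ') with hW
  set B := Metric.ball v (2 * Λ) with hB
  have hM0 : 0 ≤ M := le_trans (ha 0) (haM 0)
  have hStW : St ⊆ W := by
    intro x hx
    rw [hStdef] at hx
    unfold starSet at hx
    simp only [Set.mem_ofPred_eq] at hx
    rw [hW, Metric.mem_ball]
    have h1 : dist x v ^ 2 < (2 * Λ') ^ 2 := by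
      have := haM (x - v).arg
      nlinarith
    exact lt_of_pow_lt_pow_left₀ 2 (by positivity) h1
  have hWfin : volume W ≠ ⊤ := by rw [hW]; exact measure_ball_lt_top.ne
  have hWm : MeasurableSet W := measurableSet_ball
  have hEm := (hISOM.1 k v R η δ Λ' univ MeasurableSet.univ).2
  have hEm0 := (hISOM.1 k v {v} 0 0 Λ univ MeasurableSet.univ).2
  -- step 2
  have step2 : PP W (Iso k v R η δ Λ') ≤
      PP W (fun ω => cnt St ω = 0 ∧ Iso k v R η δ Λ' (res (W \ St) ω)) := by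
    refine hB1 W _ _ hWm (fun m x hx hIso => ?_)
    have h1 : ∀ z ∈ conf x, z ∉ St := by
      intro z hz hzS
      exact absurd (hIso.1 z hz) (not_le.2 (hii z hzS))
    refine ⟨cnt_eq_zero.2 h1, ?_⟩
    rw [res_eq_self]
    · exact hIso
    · intro z hz
      refine ⟨?_, h1 z hz⟩
      obtain ⟨i, rfl⟩ := mem_conf.1 hz
      exact hx i
  -- step 3
  have step3 := hVOID W St hWm hSt hStW hWfin (Iso k v R η δ Λ') hEm
  -- step 4
  set S'' := Stᶜ ∩ radT v a ⁻¹' B with hS''
  have hTm : Measurable (radT v a) := hT.measurable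
  have hS''m : MeasurableSet S'' := hSt.compl.inter (hTm measurableSet_ball)
  have hS''W : S'' ⊆ W \ St := by
    rintro x ⟨hx1, hx2⟩
    refine ⟨?_, hx1⟩
    have h2 : dist (radT v a x) v < 2 * Λ := hx2
    have h1 : dist (radT v a x) v ^ 2 = dist x v ^ 2 - a (x - v).arg := by
      rw [dist_radT, Real.sq_sqrt]
      have hx1' : x ∉ starSet v a := hx1
      unfold starSet at hx1'
      simp only [Set.mem_ofPred_eq, not_le] at hx1'
      linarith
    rw [hW, Metric.mem_ball]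
    have h3 : dist x v ^ 2 < (2 * Λ') ^ 2 := by
      have := haM (x - v).arg
      have := dist_nonneg (x := radT v a x) (y := v)
      nlinarith
    exact lt_of_pow_lt_pow_left₀ 2 (by positivity) h3
  have hWStm : MeasurableSet (W \ St) := hWm.diff hSt
  have hWStfin : volume (W \ St) ≠ ⊤ :=
    ne_top_of_le_ne_top hWfin (measure_mono Set.sdiff_subset)
  have step4 : PP (W \ St) (Iso k v R η δ Λ') ≤
      PP (W \ St) (fun ω => Iso k v {v} 0 0 Λ ((res S'' ω).map (radT v a))) := by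
    refine hB1 _ _ _ hWStm (fun m x hx hIso => ?_)
    refine iso_radT k v R η δ Λ Λ' M a ha haM hΛ hΛ' hM hi (conf x) ?_ hIso
    intro p hp
    obtain ⟨i, rfl⟩ := mem_conf.1 hp
    exact (hx i).2
  have hEmT : EMeas (fun ω => Iso k v {v} 0 0 Λ (ω.map (radT v a))) := by
    intro m
    have h1 : {x : Fin m → ℂ | Iso k v {v} 0 0 Λ ((conf x).map (radT v a))} =
        (fun x : Fin m → ℂ => fun i => radT v a (x i)) ⁻¹'
          {x : Fin m → ℂ | Iso k v {v} 0 0 Λ (conf x)} := by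
      ext x
      simp [conf_map]
    rw [h1]
    exact (measurable_pi_lambda _ (fun i => hTm.comp (measurable_pi_apply i))) (hEm0 m)
  have step5 := hRES (W \ St) S'' hWStm hS''m hS''W hWStfin
    (fun ω => Iso k v {v} 0 0 Λ (ω.map (radT v a))) hEmT
  have hTr : MeasurePreserving (radT v a) (volume.restrict S'') (volume.restrict B) := by
    have h1 := hT.restrict_preimage (s := B) measurableSet_ball
    rw [Measure.restrict_restrict (hTm measurableSet_ball)] at h1
    rw [hS'', Set.inter_comm]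
    exact h1
  have hS''fin : volume S'' ≠ ⊤ := ne_top_of_le_ne_top hWStfin (measure_mono hS''W)
  have step6 := hMAP S'' B (radT v a) hTr hS''fin (Iso k v {v} 0 0 Λ) hEm0
  have step7 := pp_translate hMAPE k v Λ
  calc PP W (Iso k v R η δ Λ') ≤ _ := step2
    _ = _ := step3
    _ ≤ ENNReal.ofReal (Real.exp (-(volume St).toReal)) *
        PP (W \ St) (fun ω => Iso k v {v} 0 0 Λ ((res S'' ω).map (radT v a))) := by gcongr
    _ = ENNReal.ofReal (Real.exp (-(volume St).toReal)) * pk k Λ := by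
        rw [step5, step6, step7]

end KN
end
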