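import Pool.Agent.Helper10.KN.CIN
import Pool.Agent.Helper10.KN.LUNE
import Pool.Agent.Helper10.KN.NUM
import Pool.Agent.Helper10.KN.OGS
import Pool.Agent.Helper15.KN.DR
import Pool.Agent.Helper15.KN.DR2
import Pool.Agent.Helper15.KN.DR3
import Pool.Agent.Helper15.KN.RED
import Pool.Agent.Helper37.KN.SUP
import Pool.Agent.Helper46.KN.HT
import Pool.Agent.Helper52.KN.SL
import Pool.Agent.Helper53.KN.BASIC
import Pool.Agent.Helper53.KN.IND
import Pool.Agent.Helper53.KN.MECKE
import Pool.Agent.Helper63.KN.Common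
import Pool.Agent.Helper63.KN.DB
import Pool.Agent.Helper63.KN.MGEO
import Pool.Agent.Helper63.KN.MIN
import Pool.Agent.Helper63.KN.MLE
import Pool.Agent.Helper63.KN.TIN
import Pool.Agent.Helper63.KN.TLE
import Pool.Agent.Helper66.KN.MEASG
import Pool.Agent.Helper70.KN.FOL
import Pool.Agent.Helper70.KN.FON
import Pool.Agent.Helper70.KN.Lim
import Pool.Agent.Helper76.KN.DR1
import Pool.Agent.Helper79.KN.VOID
import Pool.Agent.Helper8.KN.CL
import Pool.Agent.Helper8.KN.CLI
import Pool.Agent.Helper8.KN.CLL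
import Pool.Agent.Helper8.KN.COI
import Pool.Agent.Helper8.KN.Det
import Pool.Agent.Helper83.KN.CH
import Pool.Agent.Helper88.KN.LB
import Pool.Agent.Helper88.KN.RM
import Pool.Agent.Helper89.KN.Base
import Pool.Agent.Helper89.KN.Defs
import Pool.Agent.Helper89.KN.MAIN
import Pool.Agent.Helper89.KN.MB
import Pool.Agent.Helper89.KN.Spec
import Pool.Agent.Helper89.KN.TB
import Pool.Agent.Helper89.KN.TM
import Pool.Agent.Helper9.KN.OIN
import Pool.Agent.Helper91.KN.Common
import Pool.Agent.Helper91.KN.FIL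
import Pool.Agent.Helper91.KN.FIN
import Pool.Agent.Helper94.KN.OG
import Pool.Agent.Helper98.KN.G1
import Pool.Agent.Helper98.KN.G2
import Pool.Agent.Helper98.KN.Grid
import Pool.Agent.Helper98.KN.ISOM
import Pool.Agent.Helper98.KN.MAP
import Pool.Agent.Helper98.KN.SYM

open MeasureTheory Set Filter Topology
open scoped ENNReal

namespace KN

theorem final_of (hVOID : S_VOID) (hISOM : S_ISOM) (hG0 : S_G0) (hG1 : S_G1) (hG2 : S_G2) :
    S_MAIN := by
  have hB := basic_thm
  have hIND := ind_thm sup_thm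
  have hRES := res_thm sup_thm
  have hCHER := cher_thm hIND hRES
  have hFAM := fam_thm hIND
  have hTM : S_TM := tm_thm hB rm_thm hVOID hRES map_thm mape_thm hISOM
  have hTB : S_TB := tb_thm hTM rm_thm
  have hMB : S_MB := mb_thm hTM (H63.mgeo_thm rm_thm)
  have hDB : S_DB := H63.db_thm hB hIND hRES mape_thm hISOM
  have hTIN : S_TIN := H63.tin_thm hB hVOID hRES hISOM mecke2_thm hTB
  have hTLE : S_TLE := H63.tle_thm hB hVOID hRES hISOM mecke2_thm hTB hDB
  have hMIN : S_MIN := H63.min_thm hB hVOID hRES hISOM mecke_thm hMB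
  have hMLE : S_MLE := H63.mle_thm hB hVOID hRES hISOM mecke_thm hMB hDB
  have hCIN : S_CIN := cin_thm sl_thm lune_thm hCHER hB
  have hCLE : S_CLE := cle_thm sl_thm lune_thm hCHER hB
  have hFIN : S_FIN := fin_thm cli_thm hTIN hMIN hCIN lune_thm num_thm hB
  have hFIL : S_FIL := fil_thm cll_thm hTLE hMLE hCLE lune_thm num_thm hB
  have hFOL : S_FOL := FOL_thm col_thm (OLE_thm ogs_thm hCHER hB) lune_thm num_thm hB
  have hFON : S_FON := FON_thm coi_thm (OIN_thm og_thm hCHER hB) lune_thm num_thm hB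
  have hLB : S_LB := lb_thm (lowc_thm hFAM) lune_thm hB
  have hHT : S_HT := ht_thm hB hRES hISOM mape_thm onept_thm (chu_thm hRES) hFAM hG2
  have hRED : S_RED := red_thm (dr_thm dr1_thm dr2_thm dr3_thm) hG0 hG1 hG2 hB
  exact main_thm hB hHT hLB hRED (sym_thm hB) hFIN hFIL hFON hFOL

/-- the main theorem -/
theorem final : S_MAIN := by
  have hB := basic_thm
  have hRES := res_thm sup_thm
  have hVOID := void_thm sup_thm
  exact final_of hVOID (isom_thm measg_thm) (g0_thm hB (chu_thm hRES)) (g1_thm hB hVOID)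
    (g2_thm hB (chd_thm hRES))

end KN
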